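import Pool.Agent.Helper42.KB.Prof

/-!
# The area of the approximating metrics
-/

open Real MeasureTheory Set
open scoped ContDiff ENNReal

namespace KB

namespace T4

lemma int_max : ∫ y in (0 : ℝ)..1, max |Real.cos (π * y)| |Real.sin (π * y)| = 2 * √2 / π := by
  have hπ := Real.pi_pos
  have hcont : Continuous fun y : ℝ => max |Real.cos (π * y)| |Real.sin (π * y)| := by fun_prop
  have hint : ∀ a b : ℝ, IntervalIntegrable (fun y : ℝ => max |Real.cos (π * y)| |Real.sin (π * y)|)
      volume a b := fun a b => hcont.intervalIntegrable a b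
  have s4 : Real.sin (π * (1 / 4)) = √2 / 2 := by
    rw [show π * (1 / 4) = π / 4 by ring, Real.sin_pi_div_four]
  have c4 : Real.cos (π * (1 / 4)) = √2 / 2 := by
    rw [show π * (1 / 4) = π / 4 by ring, Real.cos_pi_div_four]
  have s34 : Real.sin (π * (3 / 4)) = √2 / 2 := by
    rw [show π * (3 / 4) = π - π / 4 by ring, Real.sin_pi_sub, Real.sin_pi_div_four]
  have c34 : Real.cos (π * (3 / 4)) = -(√2 / 2) := by
    rw [show π * (3 / 4) = π - π / 4 by ring, Real.cos_pi_sub, Real.cos_pi_div_four]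
  have h1 : ∫ y in (0 : ℝ)..(1 / 4), max |Real.cos (π * y)| |Real.sin (π * y)| =
      ∫ y in (0 : ℝ)..(1 / 4), Real.cos (π * y) := by
    apply intervalIntegral.integral_congr
    intro y hy
    rw [uIcc_of_le (by norm_num)] at hy
    have hy0 : 0 ≤ π * y := mul_nonneg hπ.le hy.1
    have hy1 : π * y ≤ π / 4 := by nlinarith [hy.2]
    have hc : 0 ≤ Real.cos (π * y) := Real.cos_nonneg_of_neg_pi_div_two_le_of_le
      (by linarith) (by linarith)
    have hs : 0 ≤ Real.sin (π * y) := Real.sin_nonneg_of_nonneg_of_le_pi hy0 (by linarith)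
    have hsc : Real.sin (π * y) ≤ Real.cos (π * y) := by
      rw [← Real.cos_pi_div_two_sub]
      exact Real.cos_le_cos_of_nonneg_of_le_pi hy0 (by linarith) (by linarith)
    simp only
    rw [abs_of_nonneg hc, abs_of_nonneg hs, max_eq_left hsc]
  have h2 : ∫ y in (1 / 4 : ℝ)..(3 / 4), max |Real.cos (π * y)| |Real.sin (π * y)| =
      ∫ y in (1 / 4 : ℝ)..(3 / 4), Real.sin (π * y) := by
    apply intervalIntegral.integral_congr
    intro y hy
    rw [uIcc_of_le (by norm_num)] at hy
    have hy0 : π / 4 ≤ π * y := by nlinarith [hy.1]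
    have hy1 : π * y ≤ 3 * π / 4 := by nlinarith [hy.2]
    have hs : 0 ≤ Real.sin (π * y) := Real.sin_nonneg_of_nonneg_of_le_pi (by linarith) (by linarith)
    have hc : |Real.cos (π * y)| ≤ Real.sin (π * y) := by
      rw [abs_le]
      constructor
      · rw [neg_le, ← Real.cos_pi_sub, ← Real.cos_pi_div_two_sub]
        rcases le_total (π * y) (π / 2) with h | h
        · exact Real.cos_le_cos_of_nonneg_of_le_pi (by linarith) (by linarith) (by linarith)
        · rw [← Real.cos_neg (π / 2 - π * y)]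
          exact Real.cos_le_cos_of_nonneg_of_le_pi (by linarith) (by linarith) (by linarith)
      · rw [← Real.cos_pi_div_two_sub]
        rcases le_total (π * y) (π / 2) with h | h
        · exact Real.cos_le_cos_of_nonneg_of_le_pi (by linarith) (by linarith) (by linarith)
        · rw [← Real.cos_neg (π / 2 - π * y)]
          exact Real.cos_le_cos_of_nonneg_of_le_pi (by linarith) (by linarith) (by linarith)
    simp only
    rw [abs_of_nonneg hs, max_eq_right hc]
  have h3 : ∫ y in (3 / 4 : ℝ)..1, max |Real.cos (π * y)| |Real.sin (π * y)| =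
      ∫ y in (3 / 4 : ℝ)..1, -Real.cos (π * y) := by
    apply intervalIntegral.integral_congr
    intro y hy
    rw [uIcc_of_le (by norm_num)] at hy
    have hy0 : 3 * π / 4 ≤ π * y := by nlinarith [hy.1]
    have hy1 : π * y ≤ π := by nlinarith [hy.2]
    have hs : 0 ≤ Real.sin (π * y) := Real.sin_nonneg_of_nonneg_of_le_pi (by linarith) (by linarith)
    have hc : Real.cos (π * y) ≤ 0 := Real.cos_nonpos_of_pi_div_two_le_of_le
      (by linarith) (by linarith)
    have hsc : Real.sin (π * y) ≤ -Real.cos (π * y) := by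
      rw [← Real.cos_pi_sub, ← Real.cos_pi_div_two_sub, ← Real.cos_neg (π / 2 - π * y)]
      exact Real.cos_le_cos_of_nonneg_of_le_pi (by linarith) (by linarith) (by linarith)
    simp only
    rw [abs_of_nonneg hs, abs_of_nonpos hc, max_eq_left hsc]
  have i1 : ∫ y in (0 : ℝ)..(1 / 4), Real.cos (π * y) = √2 / 2 / π := by
    rw [intervalIntegral.integral_comp_mul_left (fun y => Real.cos y) hπ.ne', integral_cos, s4]
    simp; ring
  have i2 : ∫ y in (1 / 4 : ℝ)..(3 / 4), Real.sin (π * y) = √2 / π := by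
    rw [intervalIntegral.integral_comp_mul_left (fun y => Real.sin y) hπ.ne', integral_sin, c4, c34]
    simp; ring
  have i3 : ∫ y in (3 / 4 : ℝ)..1, -Real.cos (π * y) = √2 / 2 / π := by
    rw [intervalIntegral.integral_neg,
      intervalIntegral.integral_comp_mul_left (fun y => Real.cos y) hπ.ne', integral_cos, s34]
    simp; ring
  rw [← intervalIntegral.integral_add_adjacent_intervals (hint 0 (1 / 4)) (hint (1 / 4) 1),
    ← intervalIntegral.integral_add_adjacent_intervals (hint (1 / 4) (3 / 4)) (hint (3 / 4) 1),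
    h1, h2, h3, i1, i2, i3]
  ring

lemma int_om_le {ε : ℝ} (hε : 0 < ε) :
    ∫ y in (0 : ℝ)..1, om ε y ≤ 2 * (2 * √2 / π) + 2 * √ε := by
  have hcont : Continuous fun y : ℝ => max |Real.cos (π * y)| |Real.sin (π * y)| := by fun_prop
  have h1 : ∫ y in (0 : ℝ)..1, om ε y ≤
      ∫ y in (0 : ℝ)..1, (2 * max |Real.cos (π * y)| |Real.sin (π * y)| + 2 * √ε) := by
    apply intervalIntegral.integral_mono_on (by norm_num)
      ((contDiff_om hε).continuous.intervalIntegrable _ _)
    · exact (Continuous.intervalIntegrable (by fun_prop) _ _)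
    · intro y _; exact om_le hε y
  refine h1.trans (le_of_eq ?_)
  rw [intervalIntegral.integral_add ((hcont.const_mul 2).intervalIntegrable _ _) (by simp),
    intervalIntegral.integral_const_mul, int_max]
  simp

end T4

open T4

theorem geps_area_le {ε : ℝ} (hε : 0 < ε) :
    (geps ε hε).area ≤ 2 * √2 * π + π ^ 2 * √ε := by
  have hπ := Real.pi_pos
  have h0 : (geps ε hε).area =
      ∫ p in (Icc (0 : ℝ) (1 / 2)) ×ˢ (Icc (0 : ℝ) 1), (1 : ℝ) * (π ^ 2 * om ε p.2) := by
    unfold RMetric.area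
    congr 1
    ext p
    have := om_pos hε p.2
    simp only [geps]
    rw [one_mul, show π ^ 2 * om ε p.2 ^ 2 * π ^ 2 - 0 ^ 2 = (π ^ 2 * om ε p.2) ^ 2 by ring]
    exact Real.sqrt_sq (by positivity)
  rw [h0]
  have h1 := MeasureTheory.setIntegral_prod_mul (μ := (volume : Measure ℝ))
    (ν := (volume : Measure ℝ)) (fun _ : ℝ => (1 : ℝ)) (fun y : ℝ => π ^ 2 * om ε y)
    (Icc (0 : ℝ) (1 / 2)) (Icc (0 : ℝ) 1)
  rw [← Measure.volume_eq_prod] at h1
  rw [h1]
  have h2 : ∫ _ in Icc (0 : ℝ) (1 / 2), (1 : ℝ) = 1 / 2 := by simp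
  have h3 : ∫ y in Icc (0 : ℝ) 1, π ^ 2 * om ε y = π ^ 2 * ∫ y in (0 : ℝ)..1, om ε y := by
    rw [integral_Icc_eq_integral_Ioc, ← intervalIntegral.integral_of_le zero_le_one,
      intervalIntegral.integral_const_mul]
  rw [h2, h3]
  have h4 := int_om_le hε
  have h5 : π ^ 2 * ∫ y in (0 : ℝ)..1, om ε y ≤ π ^ 2 * (2 * (2 * √2 / π) + 2 * √ε) :=
    mul_le_mul_of_nonneg_left h4 (by positivity)
  have h6 : π ^ 2 * (2 * (2 * √2 / π) + 2 * √ε) = 4 * √2 * π + 2 * (π ^ 2 * √ε) := by
    field_simp; ring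
  linarith

end KB
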