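import Pool.Agent.Helper42.KB.Prof

/-!
# Lengths of Lipschitz curves and calibrations for the metrics `geps`
-/

open Real MeasureTheory Set
open scoped ContDiff ENNReal NNReal

namespace KB

namespace T4

/-- speed of the curve `(x, y)` in the metric `geps ε` -/
noncomputable def spd (ε : ℝ) (x y : ℝ → ℝ) (t : ℝ) : ℝ :=
  π * √(om ε (y t) ^ 2 * (deriv x t) ^ 2 + (deriv y t) ^ 2)

variable {ε : ℝ}

lemma norm_geps (hε : 0 < ε) (p v : ℝ × ℝ) :
    (geps ε hε).norm p v = π * √(om ε p.2 ^ 2 * v.1 ^ 2 + v.2 ^ 2) := by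
  have hπ := Real.pi_pos
  unfold RMetric.norm
  simp only [geps]
  rw [show π ^ 2 * om ε p.2 ^ 2 * v.1 ^ 2 + 2 * 0 * v.1 * v.2 + π ^ 2 * v.2 ^ 2 =
    π ^ 2 * (om ε p.2 ^ 2 * v.1 ^ 2 + v.2 ^ 2) by ring, Real.sqrt_mul (by positivity),
    Real.sqrt_sq hπ.le]

lemma om_le_const (hε : 0 < ε) (y : ℝ) : om ε y ≤ 2 + 2 * √ε := by
  have h := om_le hε y
  have h1 : max |Real.cos (π * y)| |Real.sin (π * y)| ≤ 1 :=
    max_le (Real.abs_cos_le_one _) (Real.abs_sin_le_one _)
  linarith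

lemma spd_nonneg (x y : ℝ → ℝ) (t : ℝ) : 0 ≤ spd ε x y t := by
  unfold spd; positivity

lemma measurable_spd (hε : 0 < ε) {x y : ℝ → ℝ} (hy : Continuous y) :
    Measurable (spd ε x y) := by
  unfold spd
  have h1 : Measurable fun t => om ε (y t) := ((contDiff_om hε).continuous.comp hy).measurable
  have h2 := measurable_deriv x
  have h3 := measurable_deriv y
  exact (((h1.pow_const 2).mul (h2.pow_const 2)).add (h3.pow_const 2)).sqrt.const_mul π

lemma spd_le (hε : 0 < ε) {x y : ℝ → ℝ} {K : ℝ≥0} (hx : LipschitzWith K x) (hy : LipschitzWith K y)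
    (t : ℝ) : spd ε x y t ≤ π * ((3 + 2 * √ε) * K) := by
  have hπ := Real.pi_pos
  unfold spd
  apply mul_le_mul_of_nonneg_left _ hπ.le
  have h1 : |deriv x t| ≤ K := by simpa using norm_deriv_le_of_lipschitz (x₀ := t) hx
  have h2 : |deriv y t| ≤ K := by simpa using norm_deriv_le_of_lipschitz (x₀ := t) hy
  have h3 := om_le_const hε (y t)
  have h4 := om_pos hε (y t)
  have hK : (0 : ℝ) ≤ K := K.2
  apply Real.sqrt_le_iff.mpr
  refine ⟨by positivity, ?_⟩
  have e1 : om ε (y t) ^ 2 ≤ (2 + 2 * √ε) ^ 2 := pow_le_pow_left₀ h4.le h3 2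
  have e2 : (deriv x t) ^ 2 ≤ (K : ℝ) ^ 2 := by rw [← sq_abs]; exact pow_le_pow_left₀ (abs_nonneg _) h1 2
  have e3 : (deriv y t) ^ 2 ≤ (K : ℝ) ^ 2 := by rw [← sq_abs]; exact pow_le_pow_left₀ (abs_nonneg _) h2 2
  have e4 : om ε (y t) ^ 2 * (deriv x t) ^ 2 ≤ (2 + 2 * √ε) ^ 2 * (K : ℝ) ^ 2 :=
    mul_le_mul e1 e2 (sq_nonneg _) (sq_nonneg _)
  have e5 : 0 ≤ √ε := Real.sqrt_nonneg _
  nlinarith [sq_nonneg (K : ℝ), mul_nonneg e5 (sq_nonneg (K : ℝ))]

lemma intervalIntegrable_spd (hε : 0 < ε) {x y : ℝ → ℝ} {K : ℝ≥0} (hx : LipschitzWith K x)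
    (hy : LipschitzWith K y) (a b : ℝ) : IntervalIntegrable (spd ε x y) volume a b := by
  apply IntervalIntegrable.mono_fun' (g := fun _ => π * ((3 + 2 * √ε) * K))
    intervalIntegrable_const (measurable_spd hε hy.continuous).aestronglyMeasurable
  filter_upwards with t
  rw [Real.norm_of_nonneg (spd_nonneg x y t)]
  exact spd_le hε hx hy t

/-- length of a pair of Lipschitz functions -/
lemma length_pair (hε : 0 < ε) {x y : ℝ → ℝ} {K : ℝ≥0} (hx : LipschitzWith K x)
    (hy : LipschitzWith K y) :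
    (geps ε hε).length (fun t => (x t, y t)) = ∫ t in (0 : ℝ)..1, spd ε x y t := by
  unfold RMetric.length
  apply intervalIntegral.integral_congr_ae
  filter_upwards [hx.ae_differentiableAt_real, hy.ae_differentiableAt_real] with t h1 h2 _
  have : deriv (fun t => (x t, y t)) t = (deriv x t, deriv y t) :=
    (h1.hasDerivAt.prodMk h2.hasDerivAt).deriv
  rw [this, norm_geps]
  rfl

/-- every curve in the definition of the distance is, up to irrelevant changes, a pair of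
globally Lipschitz functions -/
lemma exists_pair (hε : 0 < ε) {p q : ℝ × ℝ} {γ : ℝ → ℝ × ℝ} (h : RMetric.IsCurve p q γ) :
    ∃ (x y : ℝ → ℝ) (K : ℝ≥0), LipschitzWith K x ∧ LipschitzWith K y ∧ x 0 = p.1 ∧ y 0 = p.2 ∧
      x 1 = q.1 ∧ y 1 = q.2 ∧ (geps ε hε).length γ = ∫ t in (0 : ℝ)..1, spd ε x y t := by
  obtain ⟨⟨C, hC⟩, h0, h1⟩ := h
  set γ' : ℝ → ℝ × ℝ := fun t => γ (projIcc 0 1 zero_le_one t) with hγ'
  have hL : LipschitzWith C γ' := by
    have := (lipschitzOnWith_iff_restrict.mp hC).comp (LipschitzWith.projIcc (zero_le_one' ℝ))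
    rw [mul_one] at this
    exact this
  have hx : LipschitzWith C (fun t => (γ' t).1) := by
    have := (LipschitzWith.prod_fst (α := ℝ) (β := ℝ)).comp hL
    rw [one_mul] at this
    exact this
  have hy : LipschitzWith C (fun t => (γ' t).2) := by
    have := (LipschitzWith.prod_snd (α := ℝ) (β := ℝ)).comp hL
    rw [one_mul] at this
    exact this
  have e0 : γ' 0 = p := by simp [hγ', h0]
  have e1 : γ' 1 = q := by simp [hγ', h1]
  refine ⟨fun t => (γ' t).1, fun t => (γ' t).2, C, hx, hy, by simp [e0], by simp [e0],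
    by simp [e1], by simp [e1], ?_⟩
  rw [← length_pair hε hx hy]
  unfold RMetric.length
  rw [intervalIntegral.integral_of_le zero_le_one, intervalIntegral.integral_of_le zero_le_one,
    integral_Ioc_eq_integral_Ioo, integral_Ioc_eq_integral_Ioo]
  apply setIntegral_congr_fun measurableSet_Ioo
  intro t ht
  have hev : γ =ᶠ[nhds t] fun t => ((γ' t).1, (γ' t).2) := by
    filter_upwards [Ioo_mem_nhds ht.1 ht.2] with s hs
    simp only [hγ']
    rw [projIcc_of_mem zero_le_one ⟨hs.1.le, hs.2.le⟩]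
  simp only
  rw [hev.deriv_eq, hev.eq_of_nhds]

/-- lower bound for the distance -/
lemma le_dist (hε : 0 < ε) {p q : ℝ × ℝ} {B : ℝ}
    (h : ∀ (x y : ℝ → ℝ) (K : ℝ≥0), LipschitzWith K x → LipschitzWith K y → x 0 = p.1 → y 0 = p.2 →
      x 1 = q.1 → y 1 = q.2 → B ≤ ∫ t in (0 : ℝ)..1, spd ε x y t) :
    B ≤ (geps ε hε).dist p q := by
  unfold RMetric.dist
  apply le_csInf
  · refine ⟨_, fun t => p + t • (q - p), ⟨⟨‖q - p‖₊, ?_⟩, by simp, by simp⟩, rfl⟩
    refine LipschitzWith.lipschitzOnWith ?_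
    apply LipschitzWith.of_dist_le_mul
    intro a b
    rw [dist_eq_norm, dist_eq_norm]
    have : p + a • (q - p) - (p + b • (q - p)) = (a - b) • (q - p) := by
      rw [sub_smul]; abel
    rw [this, norm_smul, mul_comm]
    rfl
  · rintro l ⟨γ, hγ, rfl⟩
    obtain ⟨x, y, K, hx, hy, h1, h2, h3, h4, h5⟩ := exists_pair hε hγ
    rw [h5]
    exact h x y K hx hy h1 h2 h3 h4

lemma length_nonneg (g : RMetric) (γ : ℝ → ℝ × ℝ) : 0 ≤ g.length γ := by
  unfold RMetric.length
  exact intervalIntegral.integral_nonneg zero_le_one (fun t _ => Real.sqrt_nonneg _)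

lemma bddBelow (g : RMetric) (p q : ℝ × ℝ) :
    BddBelow {l | ∃ γ, RMetric.IsCurve p q γ ∧ l = g.length γ} := by
  refine ⟨0, ?_⟩
  rintro l ⟨γ, _, rfl⟩
  exact length_nonneg g γ

/-- curves of small excess -/
lemma exists_curve_lt (hε : 0 < ε) {p q : ℝ × ℝ} {B : ℝ} (h : (geps ε hε).dist p q < B) :
    ∃ (x y : ℝ → ℝ) (K : ℝ≥0), LipschitzWith K x ∧ LipschitzWith K y ∧ x 0 = p.1 ∧ y 0 = p.2 ∧
      x 1 = q.1 ∧ y 1 = q.2 ∧ ∫ t in (0 : ℝ)..1, spd ε x y t < B := by
  by_contra hcon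
  push Not at hcon
  exact absurd (le_dist hε (B := B) fun x y K hx hy h1 h2 h3 h4 =>
    hcon x y K hx hy h1 h2 h3 h4) (not_le.mpr h)

lemma dist_le_aux (hε : 0 < ε) {x y : ℝ → ℝ} {K : ℝ≥0} (hx : LipschitzWith K x)
    (hy : LipschitzWith K y) :
    (geps ε hε).dist (x 0, y 0) (x 1, y 1) ≤ ∫ t in (0 : ℝ)..1, spd ε x y t := by
  apply csInf_le (bddBelow _ _ _)
  refine ⟨fun t => (x t, y t), ⟨⟨K, ?_⟩, rfl, rfl⟩, (length_pair hε hx hy).symm⟩
  refine LipschitzWith.lipschitzOnWith ?_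
  have := hx.prodMk hy
  simpa using this

lemma deriv_aff (f : ℝ → ℝ) (a c t : ℝ) :
    deriv (fun t => f (c * t + a)) t = c * deriv f (c * t + a) := by
  have h1 := deriv_comp_mul_left c (fun s => f (s + a)) t
  rw [smul_eq_mul, deriv_comp_add_const] at h1
  exact h1

/-- The distance is at most the length, on an arbitrary interval. -/
lemma dist_le (hε : 0 < ε) {x y : ℝ → ℝ} {K : ℝ≥0} (hx : LipschitzWith K x)
    (hy : LipschitzWith K y) {a b : ℝ} (hab : a ≤ b) :
    (geps ε hε).dist (x a, y a) (x b, y b) ≤ ∫ t in a..b, spd ε x y t := by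
  have hlin : LipschitzWith (Real.nnabs (b - a)) (fun t : ℝ => (b - a) * t + a) := by
    apply LipschitzWith.of_dist_le_mul
    intro s t
    rw [Real.dist_eq, Real.dist_eq]
    rw [show (b - a) * s + a - ((b - a) * t + a) = (b - a) * (s - t) by ring, abs_mul]
    simp
  have hX := hx.comp hlin
  have hY := hy.comp hlin
  have h := dist_le_aux hε hX hY
  simp only [Function.comp_def, mul_zero, zero_add, mul_one, sub_add_cancel] at h
  refine h.trans (le_of_eq ?_)
  rcases hab.eq_or_lt with rfl | hlt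
  · rw [intervalIntegral.integral_same]
    have : ∀ t, spd ε (fun t => x ((a - a) * t + a)) (fun t => y ((a - a) * t + a)) t = 0 := by
      intro t
      unfold spd
      rw [deriv_aff, deriv_aff]
      simp
    simp only [this]
    simp
  · have h2 : ∀ t, spd ε (fun t => x ((b - a) * t + a)) (fun t => y ((b - a) * t + a)) t =
        (b - a) * spd ε x y ((b - a) * t + a) := by
      intro t
      unfold spd
      rw [deriv_aff, deriv_aff]
      rw [show om ε (y ((b - a) * t + a)) ^ 2 * ((b - a) * deriv x ((b - a) * t + a)) ^ 2 +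
        ((b - a) * deriv y ((b - a) * t + a)) ^ 2 = (b - a) ^ 2 *
        (om ε (y ((b - a) * t + a)) ^ 2 * (deriv x ((b - a) * t + a)) ^ 2 +
        (deriv y ((b - a) * t + a)) ^ 2) by ring, Real.sqrt_mul (sq_nonneg _),
        Real.sqrt_sq (by linarith)]
      ring
    simp only [h2]
    rw [intervalIntegral.integral_const_mul,
      intervalIntegral.integral_comp_mul_add (fun s => spd ε x y s) (by linarith) a]
    rw [smul_eq_mul, ← mul_assoc, mul_inv_cancel₀ (by linarith), one_mul]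
    congr 1 <;> ring

/-- **Calibration lemma**. -/
lemma calib (hε : 0 < ε) {Φ : ℝ × ℝ → ℝ} (hΦ : ContDiff ℝ 1 Φ)
    (h : ∀ p v, fderiv ℝ Φ p v ≤ (geps ε hε).norm p v) {x y : ℝ → ℝ} {K : ℝ≥0}
    (hx : LipschitzWith K x) (hy : LipschitzWith K y) {a b : ℝ} (hab : a ≤ b) :
    Φ (x b, y b) - Φ (x a, y a) ≤ ∫ t in a..b, spd ε x y t := by
  have hc : LipschitzWith K (fun t => (x t, y t)) := by simpa using hx.prodMk hy
  have hd : Differentiable ℝ Φ := hΦ.differentiable one_ne_zero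
  -- Φ is Lipschitz
  have hπ := Real.pi_pos
  have hbound : ∀ p, ‖fderiv ℝ Φ p‖₊ ≤ Real.toNNReal (π * (3 + 2 * √ε)) := by
    intro p
    rw [← NNReal.coe_le_coe, coe_nnnorm, Real.coe_toNNReal _ (by positivity)]
    apply ContinuousLinearMap.opNorm_le_bound _ (by positivity)
    intro v
    have key : ∀ v : ℝ × ℝ, (geps ε hε).norm p v ≤ π * (3 + 2 * √ε) * ‖v‖ := by
      intro v
      rw [norm_geps]
      have h1 : |v.1| ≤ ‖v‖ := norm_fst_le v
      have h2 : |v.2| ≤ ‖v‖ := norm_snd_le v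
      have h3 := om_le_const hε p.2
      have h4 := om_pos hε p.2
      rw [mul_assoc]
      apply mul_le_mul_of_nonneg_left _ hπ.le
      apply Real.sqrt_le_iff.mpr
      refine ⟨by positivity, ?_⟩
      have e1 : om ε p.2 ^ 2 ≤ (2 + 2 * √ε) ^ 2 := pow_le_pow_left₀ h4.le h3 2
      have e2 : v.1 ^ 2 ≤ ‖v‖ ^ 2 := by rw [← sq_abs]; exact pow_le_pow_left₀ (abs_nonneg _) h1 2
      have e3 : v.2 ^ 2 ≤ ‖v‖ ^ 2 := by rw [← sq_abs]; exact pow_le_pow_left₀ (abs_nonneg _) h2 2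
      have e4 : om ε p.2 ^ 2 * v.1 ^ 2 ≤ (2 + 2 * √ε) ^ 2 * ‖v‖ ^ 2 :=
        mul_le_mul e1 e2 (sq_nonneg _) (sq_nonneg _)
      have e5 : 0 ≤ √ε := Real.sqrt_nonneg _
      nlinarith [sq_nonneg ‖v‖, mul_nonneg e5 (sq_nonneg ‖v‖)]
    rw [Real.norm_eq_abs, abs_le]
    constructor
    · have h1 := (h p (-v)).trans (key (-v))
      rw [map_neg, norm_neg] at h1
      linarith
    · exact (h p v).trans (key v)
  have hLip : LipschitzWith (Real.toNNReal (π * (3 + 2 * √ε))) Φ :=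
    lipschitzWith_of_nnnorm_fderiv_le hd hbound
  have hcomp := hLip.comp hc
  have hAC : AbsolutelyContinuousOnInterval (fun t => Φ (x t, y t)) a b :=
    (hcomp.lipschitzOnWith).absolutelyContinuousOnInterval
  rw [← hAC.integral_deriv_eq_sub]
  apply intervalIntegral.integral_mono_ae hab hAC.intervalIntegrable_deriv
    (intervalIntegrable_spd hε hx hy a b)
  filter_upwards [hx.ae_differentiableAt_real, hy.ae_differentiableAt_real] with t h1 h2
  have h3 : HasDerivAt (fun t => (x t, y t)) (deriv x t, deriv y t) t :=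
    h1.hasDerivAt.prodMk h2.hasDerivAt
  have h4 := (hd (x t, y t)).hasFDerivAt.comp_hasDerivAt t h3
  have h5 : deriv (fun t => Φ (x t, y t)) t = fderiv ℝ Φ (x t, y t) (deriv x t, deriv y t) :=
    h4.deriv
  rw [h5]
  refine (h _ _).trans (le_of_eq ?_)
  rw [norm_geps]
  rfl

/-- Calibration lemma for the distance. -/
lemma calib_dist (hε : 0 < ε) {Φ : ℝ × ℝ → ℝ} (hΦ : ContDiff ℝ 1 Φ)
    (h : ∀ p v, fderiv ℝ Φ p v ≤ (geps ε hε).norm p v) (p q : ℝ × ℝ) :
    Φ q - Φ p ≤ (geps ε hε).dist p q := by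
  apply le_dist hε
  intro x y K hx hy h1 h2 h3 h4
  have := calib hε hΦ h hx hy (zero_le_one' ℝ)
  rw [h1, h2, h3, h4] at this
  exact this

end T4

end KB
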