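import Pool.Agent.Helper42.KB.Sep

/-!
# Minimizing curves for the metrics `geps`: speed and energy
-/

open Real MeasureTheory Set
open scoped ContDiff ENNReal NNReal

namespace KB

namespace T4

variable {ε : ℝ}

lemma cs_aux {α β a b m o : ℝ} (h : α ^ 2 + β ^ 2 ≤ 1) (hm : 0 ≤ m) (hmo : m ≤ o) :
    α * b + β * m * a ≤ √(o ^ 2 * a ^ 2 + b ^ 2) := by
  apply Real.le_sqrt_of_sq_le
  have h1 : (α * b + β * m * a) ^ 2 ≤ (α ^ 2 + β ^ 2) * (b ^ 2 + m ^ 2 * a ^ 2) := by
    nlinarith [sq_nonneg (α * (m * a) - β * b)]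
  have h2 : m ^ 2 ≤ o ^ 2 := pow_le_pow_left₀ hm hmo 2
  have h3 : m ^ 2 * a ^ 2 ≤ o ^ 2 * a ^ 2 := mul_le_mul_of_nonneg_right h2 (sq_nonneg a)
  have h4 : 0 ≤ b ^ 2 + m ^ 2 * a ^ 2 := by positivity
  nlinarith

/-- local lower bound for the distance -/
lemma local_bound (hε : 0 < ε) {p q : ℝ × ℝ} {r m α β : ℝ} (hr : (geps ε hε).dist p q < r)
    (hm0 : 0 ≤ m) (hm : ∀ y, |y - p.2| ≤ r / π → m ≤ om ε y) (hαβ : α ^ 2 + β ^ 2 ≤ 1) :
    π * (α * (q.2 - p.2) + β * m * (q.1 - p.1)) ≤ (geps ε hε).dist p q := by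
  have hπ := Real.pi_pos
  by_contra hcon
  push Not at hcon
  obtain ⟨x, y, K, hx, hy, h0, h0', h1, h1', hlen⟩ := exists_curve_lt hε (lt_min hr hcon)
  have hlen1 := hlen.trans_le (min_le_left _ _)
  have hlen2 := hlen.trans_le (min_le_right _ _)
  have hyt : ∀ t ∈ Icc (0 : ℝ) 1, |y t - p.2| ≤ r / π := by
    intro t ht
    have e1 := (dist_ge_y hε (x 0, y 0) (x t, y t)).trans (dist_le hε hx hy ht.1)
    have e2 : ∫ s in (0 : ℝ)..t, spd ε x y s ≤ ∫ s in (0 : ℝ)..1, spd ε x y s := by
      apply intervalIntegral.integral_mono_interval le_rfl ht.1 ht.2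
      · exact Filter.Eventually.of_forall fun s => spd_nonneg x y s
      · exact intervalIntegrable_spd hε hx hy 0 1
    simp only at e1
    rw [le_div_iff₀ hπ, ← h0']
    nlinarith
  have hX : AbsolutelyContinuousOnInterval x 0 1 := hx.lipschitzOnWith.absolutelyContinuousOnInterval
  have hY : AbsolutelyContinuousOnInterval y 0 1 := hy.lipschitzOnWith.absolutelyContinuousOnInterval
  have e3 : π * (α * (q.2 - p.2) + β * m * (q.1 - p.1)) =
      ∫ t in (0 : ℝ)..1, π * (α * deriv y t + β * m * deriv x t) := by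
    rw [intervalIntegral.integral_const_mul, intervalIntegral.integral_add
      (hY.intervalIntegrable_deriv.const_mul _) (hX.intervalIntegrable_deriv.const_mul _),
      intervalIntegral.integral_const_mul, intervalIntegral.integral_const_mul,
      hX.integral_deriv_eq_sub, hY.integral_deriv_eq_sub, h0, h0', h1, h1']
  rw [e3] at hlen2
  refine absurd hlen2 (not_lt.mpr ?_)
  apply intervalIntegral.integral_mono_on zero_le_one
  · exact ((hY.intervalIntegrable_deriv.const_mul _).add
      (hX.intervalIntegrable_deriv.const_mul _)).const_mul _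
  · exact intervalIntegrable_spd hε hx hy 0 1
  · intro t ht
    unfold spd
    exact mul_le_mul_of_nonneg_left (cs_aux hαβ hm0 (hm _ (hyt t ht))) hπ.le

/-- `(x, y)` is a minimizing curve on `[0, L]`, parametrized by arc length -/
def IsGeo (hε : 0 < ε) (L : ℝ) (x y : ℝ → ℝ) : Prop :=
  ∀ s ∈ Icc 0 L, ∀ t ∈ Icc 0 L, (geps ε hε).dist (x s, y s) (x t, y t) = |s - t|

lemma spd_le_one (hε : 0 < ε) {L : ℝ} {x y : ℝ → ℝ} (hg : IsGeo hε L x y) {t : ℝ}
    (ht : t ∈ Ioo 0 L) (hx : DifferentiableAt ℝ x t) (hy : DifferentiableAt ℝ y t) :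
    spd ε x y t ≤ 1 := by
  have hπ := Real.pi_pos
  have ho := om_pos hε (y t)
  -- unit vectors
  have key : ∀ α β : ℝ, α ^ 2 + β ^ 2 ≤ 1 →
      π * (α * deriv y t + β * om ε (y t) * deriv x t) ≤ 1 := by
    intro α β hαβ
    have key2 : ∀ m : ℝ, 0 ≤ m → m < om ε (y t) →
        π * (α * deriv y t + β * m * deriv x t) ≤ 1 := by
      intro m hm0 hm
      have hcont : ContinuousAt (om ε) (y t) := (contDiff_om hε).continuous.continuousAt
      obtain ⟨δ, hδ, hball⟩ := Metric.eventually_nhds_iff.mp (hcont.eventually (lt_mem_nhds hm))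
      have hlim : Filter.Tendsto (fun h : ℝ => π * (α * (h⁻¹ * (y (t + h) - y t)) +
          β * m * (h⁻¹ * (x (t + h) - x t)))) (nhdsWithin 0 (Ioi 0))
          (nhds (π * (α * deriv y t + β * m * deriv x t))) := by
        have hy1 := hy.hasDerivAt.tendsto_slope_zero_right
        have hx1 := hx.hasDerivAt.tendsto_slope_zero_right
        simp only [smul_eq_mul] at hx1 hy1
        exact ((hy1.const_mul α).add (hx1.const_mul (β * m))).const_mul π
      refine le_of_tendsto hlim ?_
      have hnear : Ioo (0 : ℝ) (min (L - t) (δ * π / 2 / 2)) ∈ nhdsWithin (0 : ℝ) (Ioi 0) :=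
        Ioo_mem_nhdsGT (lt_min (by linarith [ht.2]) (by positivity))
      filter_upwards [hnear] with h hh
      have hh1 := hh.2.trans_le (min_le_left _ _)
      have hh2 := hh.2.trans_le (min_le_right _ _)
      have hh0 := hh.1
      have hd := hg t ⟨ht.1.le, ht.2.le⟩ (t + h) ⟨by linarith [ht.1], by linarith⟩
      have hd2 : |t - (t + h)| = h := by
        rw [show t - (t + h) = -h by ring, abs_neg, abs_of_pos hh0]
      rw [hd2] at hd
      have hlb := local_bound hε (p := (x t, y t)) (q := (x (t + h), y (t + h))) (r := 2 * h)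
        (m := m) (α := α) (β := β) (by rw [hd]; linarith) hm0 ?_ hαβ
      · rw [hd] at hlb
        simp only at hlb
        have : π * (α * (h⁻¹ * (y (t + h) - y t)) + β * m * (h⁻¹ * (x (t + h) - x t))) =
            h⁻¹ * (π * (α * (y (t + h) - y t) + β * m * (x (t + h) - x t))) := by ring
        rw [this, inv_mul_le_iff₀ hh0, mul_one]
        exact hlb
      · intro z hz
        apply le_of_lt
        apply hball
        rw [Real.dist_eq]
        simp only at hz
        refine hz.trans_lt ?_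
        rw [div_lt_iff₀ hπ]
        nlinarith
    -- let `m → om`
    have hlim : Filter.Tendsto (fun m : ℝ => π * (α * deriv y t + β * m * deriv x t))
        (nhdsWithin (om ε (y t)) (Iio (om ε (y t))))
        (nhds (π * (α * deriv y t + β * om ε (y t) * deriv x t))) := by
      have : Continuous fun m : ℝ => π * (α * deriv y t + β * m * deriv x t) := by fun_prop
      exact (this.tendsto _).mono_left nhdsWithin_le_nhds
    refine le_of_tendsto hlim ?_
    filter_upwards [Ioo_mem_nhdsLT ho] with m hm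
    exact key2 m hm.1.le hm.2
  set N := √(om ε (y t) ^ 2 * (deriv x t) ^ 2 + (deriv y t) ^ 2) with hN
  have hN2 : N ^ 2 = om ε (y t) ^ 2 * (deriv x t) ^ 2 + (deriv y t) ^ 2 :=
    Real.sq_sqrt (by positivity)
  have hspd : spd ε x y t = π * N := rfl
  rw [hspd]
  have hN0 : 0 ≤ N := Real.sqrt_nonneg _
  clear_value N
  rcases hN0.eq_or_lt with h0 | hpos
  · rw [← h0]; simp
  · have := key (deriv y t / N) (om ε (y t) * deriv x t / N) (by
      rw [div_pow, div_pow, ← add_div, div_le_one (by positivity), hN2]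
      nlinarith)
    have e : deriv y t / N * deriv y t + om ε (y t) * deriv x t / N * om ε (y t) * deriv x t = N := by
      field_simp
      rw [hN2]; ring
    rw [e] at this
    exact this

/-- energy density -/
noncomputable def en (ε : ℝ) (x y : ℝ → ℝ) (t : ℝ) : ℝ :=
  om ε (y t) ^ 2 * (deriv x t) ^ 2 + (deriv y t) ^ 2

lemma spd_sq (x y : ℝ → ℝ) (t : ℝ) : spd ε x y t ^ 2 = π ^ 2 * en ε x y t := by
  unfold spd en
  rw [mul_pow, Real.sq_sqrt (by positivity)]

lemma intervalIntegrable_en (hε : 0 < ε) {x y : ℝ → ℝ} {K : ℝ≥0} (hx : LipschitzWith K x)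
    (hy : LipschitzWith K y) (a b : ℝ) : IntervalIntegrable (en ε x y) volume a b := by
  have hπ := Real.pi_pos
  have h1 : ∀ t, en ε x y t = (π ^ 2)⁻¹ * spd ε x y t ^ 2 := by
    intro t; rw [spd_sq]; field_simp
  have h2 : IntervalIntegrable (fun t => spd ε x y t ^ 2) volume a b := by
    apply IntervalIntegrable.mono_fun' (g := fun _ => (π * ((3 + 2 * √ε) * K)) ^ 2)
      intervalIntegrable_const ((measurable_spd hε hy.continuous).pow_const 2).aestronglyMeasurable
    filter_upwards with t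
    rw [Real.norm_of_nonneg (sq_nonneg _)]
    exact pow_le_pow_left₀ (spd_nonneg x y t) (spd_le hε hx hy t) 2
  have h3 := h2.const_mul (π ^ 2)⁻¹
  exact h3.congr fun t _ => (h1 t).symm

/-- energy of an arbitrary competitor -/
lemma energy_ge (hε : 0 < ε) {L : ℝ} (hL : 0 ≤ L) {x y : ℝ → ℝ} (hg : IsGeo hε L x y)
    {X Y : ℝ → ℝ} {K : ℝ≥0} (hX : LipschitzWith K X) (hY : LipschitzWith K Y)
    (h0 : X 0 = x 0) (h0' : Y 0 = y 0) (h1 : X L = x L) (h1' : Y L = y L) :
    L ≤ π ^ 2 * ∫ t in (0 : ℝ)..L, en ε X Y t := by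
  have e1 := dist_le hε hX hY hL
  rw [h0, h0', h1, h1', hg 0 ⟨le_rfl, hL⟩ L ⟨hL, le_rfl⟩] at e1
  rw [zero_sub, abs_neg, abs_of_nonneg hL] at e1
  have hi := intervalIntegrable_spd hε hX hY 0 L
  have hi2 := intervalIntegrable_en hε hX hY 0 L
  have e2 : ∫ t in (0 : ℝ)..L, spd ε X Y t ≤ ∫ t in (0 : ℝ)..L, (1 / 2 + 1 / 2 * (π ^ 2 * en ε X Y t)) := by
    apply intervalIntegral.integral_mono_on hL hi
    · exact intervalIntegrable_const.add ((hi2.const_mul _).const_mul _)
    · intro t _
      rw [← spd_sq]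
      nlinarith [sq_nonneg (spd ε X Y t - 1)]
  rw [intervalIntegral.integral_add intervalIntegrable_const ((hi2.const_mul _).const_mul _),
    intervalIntegral.integral_const_mul, intervalIntegral.integral_const_mul] at e2
  simp only [intervalIntegral.integral_const, sub_zero, smul_eq_mul] at e2
  linarith

/-- energy of the minimizer -/
lemma energy_le (hε : 0 < ε) {L : ℝ} (hL : 0 ≤ L) {x y : ℝ → ℝ} {K : ℝ≥0} (hx : LipschitzWith K x)
    (hy : LipschitzWith K y) (hg : IsGeo hε L x y) :
    π ^ 2 * ∫ t in (0 : ℝ)..L, en ε x y t ≤ L := by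
  rw [← intervalIntegral.integral_const_mul]
  have : ∫ t in (0 : ℝ)..L, π ^ 2 * en ε x y t ≤ ∫ _ in (0 : ℝ)..L, (1 : ℝ) := by
    rw [intervalIntegral.integral_of_le hL, intervalIntegral.integral_of_le hL,
      integral_Ioc_eq_integral_Ioo, integral_Ioc_eq_integral_Ioo]
    apply setIntegral_mono_ae_restrict
    · exact ((intervalIntegrable_en hε hx hy 0 L).const_mul _).1.mono_set Ioo_subset_Ioc_self
    · exact integrableOn_const (by simp)
    · rw [Filter.EventuallyLE, ae_restrict_iff' measurableSet_Ioo]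
      filter_upwards [hx.ae_differentiableAt_real, hy.ae_differentiableAt_real] with t h1 h2 ht
      rw [← spd_sq]
      have := spd_le_one hε hg ht h1 h2
      have h0 := spd_nonneg (ε := ε) x y t
      nlinarith
  simpa using this

end T4

end KB
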