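import Pool.Agent.Helper42.KB.Geod1

/-!
# Euler–Lagrange equations of minimizing curves
-/

open Real MeasureTheory Set
open scoped ContDiff ENNReal NNReal

namespace KB

namespace T4

variable {ε : ℝ}

/-- a bounded measurable function is interval integrable -/
lemma intervalIntegrable_of_bdd {G : ℝ → ℝ} (hG : Measurable G) {a b M : ℝ}
    (h : ∀ t, |G t| ≤ M) : IntervalIntegrable G volume a b := by
  apply IntervalIntegrable.mono_fun' (g := fun _ => M) intervalIntegrable_const
    hG.aestronglyMeasurable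
  filter_upwards with t
  exact h t

/-- primitive of a bounded measurable function -/
lemma primitive {g : ℝ → ℝ} (hg : Measurable g) {M : ℝ} (hM : ∀ t, |g t| ≤ M) :
    LipschitzWith (Real.toNNReal M) (fun t => ∫ s in (0 : ℝ)..t, g s) ∧
      ∀ᵐ t, deriv (fun t => ∫ s in (0 : ℝ)..t, g s) t = g t := by
  have hM0 : 0 ≤ M := (abs_nonneg _).trans (hM 0)
  constructor
  · apply LipschitzWith.of_dist_le_mul
    intro s t
    rw [Real.dist_eq, Real.dist_eq, Real.coe_toNNReal _ hM0,
      intervalIntegral.integral_interval_sub_left (intervalIntegrable_of_bdd hg hM)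
        (intervalIntegrable_of_bdd hg hM)]
    exact intervalIntegral.norm_integral_le_of_norm_le_const (f := g) (C := M) (fun x _ => hM x)
  · have hloc : LocallyIntegrable g volume := by
      apply (locallyIntegrable_const M).mono hg.aestronglyMeasurable
      filter_upwards with t
      rw [Real.norm_of_nonneg hM0]
      exact hM t
    filter_upwards [LocallyIntegrable.ae_hasDerivAt_integral hloc] with t ht
    exact (ht 0).deriv

/-- The du Bois-Reymond lemma. -/
lemma duBois {L M : ℝ} (hL : 0 < L) {G : ℝ → ℝ} (hG : Measurable G)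
    (hM : ∀ t ∈ Icc 0 L, |G t| ≤ M)
    (h : ∀ (ζ : ℝ → ℝ) (K : ℝ≥0), LipschitzWith K ζ → ζ 0 = 0 → ζ L = 0 →
      ∫ t in (0 : ℝ)..L, G t * deriv ζ t = 0) :
    ∃ J, ∀ᵐ t, t ∈ Ioo 0 L → G t = J := by
  have hM0 : 0 ≤ M := (abs_nonneg _).trans (hM 0 ⟨le_rfl, hL.le⟩)
  set G' : ℝ → ℝ := indicator (Icc 0 L) G with hG'
  have hG'm : Measurable G' := hG.indicator measurableSet_Icc
  have hG'b : ∀ t, |G' t| ≤ M := by
    intro t
    by_cases ht : t ∈ Icc 0 L
    · rw [hG', indicator_of_mem ht]; exact hM t ht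
    · rw [hG', indicator_of_notMem ht, abs_zero]; exact hM0
  have hG'i : ∀ a b, IntervalIntegrable G' volume a b := fun a b =>
    intervalIntegrable_of_bdd hG'm hG'b
  have hGG' : ∀ t ∈ Icc 0 L, G' t = G t := fun t ht => by rw [hG', indicator_of_mem ht]
  set J := (1 / L) * ∫ t in (0 : ℝ)..L, G' t with hJ
  set g : ℝ → ℝ := fun t => G' t - J with hg
  have hgm : Measurable g := hG'm.sub_const J
  have hgb : ∀ t, |g t| ≤ M + |J| := fun t => (abs_sub _ _).trans (by linarith [hG'b t])
  have hgi : ∀ a b, IntervalIntegrable g volume a b := fun a b =>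
    intervalIntegrable_of_bdd hgm hgb
  obtain ⟨hLip, hder⟩ := primitive hgm hgb
  have hg0 : ∫ t in (0 : ℝ)..L, g t = 0 := by
    simp only [hg]
    rw [intervalIntegral.integral_sub (hG'i 0 L) intervalIntegrable_const]
    simp only [intervalIntegral.integral_const, sub_zero, smul_eq_mul]
    rw [hJ]; field_simp; ring
  have hmain := h _ _ hLip (by simp) hg0
  have e1 : ∫ t in (0 : ℝ)..L, G t * deriv (fun t => ∫ s in (0 : ℝ)..t, g s) t =
      ∫ t in (0 : ℝ)..L, (J + g t) * g t := by
    apply intervalIntegral.integral_congr_ae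
    filter_upwards [hder] with t ht htI
    rw [ht]
    rw [uIoc_of_le hL.le] at htI
    rw [← hGG' t ⟨htI.1.le, htI.2⟩]
    simp only [hg]; ring
  have hg2i : IntervalIntegrable (fun t => g t ^ 2) volume 0 L := by
    apply intervalIntegrable_of_bdd (hgm.pow_const 2) (M := (M + |J|) ^ 2)
    intro t
    rw [abs_of_nonneg (sq_nonneg _), ← sq_abs]
    exact pow_le_pow_left₀ (abs_nonneg _) (hgb t) 2
  have e2 : ∫ t in (0 : ℝ)..L, (J + g t) * g t = ∫ t in (0 : ℝ)..L, g t ^ 2 := by
    have : ∀ t, (J + g t) * g t = J * g t + g t ^ 2 := fun t => by ring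
    simp only [this]
    rw [intervalIntegral.integral_add ((hgi 0 L).const_mul J) hg2i,
      intervalIntegral.integral_const_mul, hg0, mul_zero, zero_add]
  rw [e1, e2] at hmain
  rw [intervalIntegral.integral_of_le hL.le] at hmain
  have hz := (setIntegral_eq_zero_iff_of_nonneg_ae (μ := volume) (s := Ioc 0 L)
    (f := fun t => g t ^ 2) (Filter.Eventually.of_forall fun t => sq_nonneg _) hg2i.1).mp hmain
  rw [Filter.EventuallyEq, ae_restrict_iff' measurableSet_Ioc] at hz
  refine ⟨J, ?_⟩
  filter_upwards [hz] with t ht htI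
  have h1 := ht ⟨htI.1, htI.2.le⟩
  have h2 : g t = 0 := by simpa using h1
  rw [← hGG' t ⟨htI.1.le, htI.2.le⟩]
  simp only [hg] at h2
  linarith

lemma quad_zero {A B : ℝ} (h : ∀ s : ℝ, 0 ≤ s * A + s ^ 2 * B) : A = 0 := by
  by_contra hA
  -- choose `s` small with the sign of `-A`
  have hB : 0 < |B| + 1 := by positivity
  have h1 := h (-A / (|B| + 1))
  have h2 : -A / (|B| + 1) * A + (-A / (|B| + 1)) ^ 2 * B =
      A ^ 2 / (|B| + 1) ^ 2 * (B - (|B| + 1)) := by
    field_simp; ring
  rw [h2] at h1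
  have h3 : 0 < A ^ 2 / (|B| + 1) ^ 2 := by positivity
  have h4 : B - (|B| + 1) < 0 := by linarith [le_abs_self B]
  nlinarith

/-- first variation in the `x`-direction -/
lemma var_x (hε : 0 < ε) {L : ℝ} (hL : 0 ≤ L) {x y : ℝ → ℝ} {K : ℝ≥0} (hx : LipschitzWith K x)
    (hy : LipschitzWith K y) (hg : IsGeo hε L x y) {ζ : ℝ → ℝ} {K' : ℝ≥0}
    (hζ : LipschitzWith K' ζ) (h0 : ζ 0 = 0) (h1 : ζ L = 0) :
    ∫ t in (0 : ℝ)..L, om ε (y t) ^ 2 * deriv x t * deriv ζ t = 0 := by
  have hπ := Real.pi_pos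
  have homb : ∀ t, |om ε (y t) ^ 2| ≤ (2 + 2 * √ε) ^ 2 := fun t => by
    rw [abs_of_nonneg (sq_nonneg _)]
    exact pow_le_pow_left₀ (om_pos hε _).le (om_le_const hε _) 2
  have hom : Measurable fun t => om ε (y t) ^ 2 :=
    (((contDiff_om hε).continuous.comp hy.continuous).pow 2).measurable
  have hx' : ∀ t, |deriv x t| ≤ K := fun t => norm_deriv_le_of_lipschitz hx
  have hζ' : ∀ t, |deriv ζ t| ≤ K' := fun t => norm_deriv_le_of_lipschitz hζ
  have i1 : IntervalIntegrable (fun t => om ε (y t) ^ 2 * deriv x t * deriv ζ t) volume 0 L := by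
    apply intervalIntegrable_of_bdd ((hom.mul (measurable_deriv x)).mul (measurable_deriv ζ))
      (M := (2 + 2 * √ε) ^ 2 * K * K')
    intro t
    simp only [Pi.mul_apply]
    rw [abs_mul, abs_mul]
    exact mul_le_mul (mul_le_mul (homb t) (hx' t) (abs_nonneg _) (by positivity)) (hζ' t)
      (abs_nonneg _) (by positivity)
  have i2 : IntervalIntegrable (fun t => om ε (y t) ^ 2 * (deriv ζ t) ^ 2) volume 0 L := by
    apply intervalIntegrable_of_bdd (hom.mul ((measurable_deriv ζ).pow_const 2))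
      (M := (2 + 2 * √ε) ^ 2 * K' ^ 2)
    intro t
    simp only [Pi.mul_apply]
    rw [abs_mul, abs_pow (deriv ζ t)]
    exact mul_le_mul (homb t) (pow_le_pow_left₀ (abs_nonneg _) (hζ' t) 2) (by positivity)
      (by positivity)
  have hle := energy_le hε hL hx hy hg
  have key : ∀ s : ℝ, 0 ≤ s * (2 * ∫ t in (0 : ℝ)..L, om ε (y t) ^ 2 * deriv x t * deriv ζ t) +
      s ^ 2 * ∫ t in (0 : ℝ)..L, om ε (y t) ^ 2 * (deriv ζ t) ^ 2 := by
    intro s
    have hX : LipschitzWith (K + Real.nnabs s * K') (fun t => x t + s * ζ t) := by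
      refine hx.add ?_
      apply LipschitzWith.of_dist_le_mul
      intro a b
      have := hζ.dist_le_mul a b
      rw [Real.dist_eq, Real.dist_eq] at *
      rw [← mul_sub, abs_mul]
      simp only [NNReal.coe_mul, Real.coe_nnabs]
      rw [mul_assoc]
      exact mul_le_mul_of_nonneg_left this (abs_nonneg _)
    have hY : LipschitzWith (K + Real.nnabs s * K') y := hy.weaken le_self_add
    have hge := energy_ge hε hL hg hX hY (by simp [h0]) rfl (by simp [h1]) rfl
    have e1 : ∫ t in (0 : ℝ)..L, en ε (fun t => x t + s * ζ t) y t =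
        ∫ t in (0 : ℝ)..L, (en ε x y t + (s * (2 * (om ε (y t) ^ 2 * deriv x t * deriv ζ t)) +
          s ^ 2 * (om ε (y t) ^ 2 * (deriv ζ t) ^ 2))) := by
      apply intervalIntegral.integral_congr_ae
      filter_upwards [hx.ae_differentiableAt_real, hζ.ae_differentiableAt_real] with t k1 k2 _
      have : deriv (fun t => x t + s * ζ t) t = deriv x t + s * deriv ζ t :=
        (k1.hasDerivAt.add (k2.hasDerivAt.const_mul s)).deriv
      unfold en
      rw [this]; ring
    rw [e1, intervalIntegral.integral_add (intervalIntegrable_en hε hx hy 0 L)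
      (((i1.const_mul 2).const_mul s).add (i2.const_mul _)),
      intervalIntegral.integral_add ((i1.const_mul 2).const_mul s) (i2.const_mul _),
      intervalIntegral.integral_const_mul, intervalIntegral.integral_const_mul,
      intervalIntegral.integral_const_mul] at hge
    have hπ2 : 0 < π ^ 2 := by positivity
    have : 0 ≤ π ^ 2 * (s * (2 * ∫ t in (0 : ℝ)..L, om ε (y t) ^ 2 * deriv x t * deriv ζ t) +
      s ^ 2 * ∫ t in (0 : ℝ)..L, om ε (y t) ^ 2 * (deriv ζ t) ^ 2) := by
      nlinarith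
    exact nonneg_of_mul_nonneg_right this hπ2
  have := quad_zero key
  linarith

end T4

end KB
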