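import Pool.Agent.Helper42.KB.Geod2

/-!
# Euler–Lagrange equations of minimizing curves, II
-/

open Real MeasureTheory Set
open scoped ContDiff ENNReal NNReal

namespace KB

namespace T4

variable {ε : ℝ}

lemma hf_ge (y : ℝ) : √ε ≤ hf ε y := by
  apply Real.sqrt_le_sqrt
  have := Real.neg_one_le_sin (2 * π * y); linarith

lemma hf1_le (hε : 0 < ε) (y : ℝ) : |hf1 ε y| ≤ π / √ε := by
  have hπ := Real.pi_pos
  have h1 := hf_ge (ε := ε) y
  have h2 : 0 < √ε := Real.sqrt_pos.mpr hε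
  have h3 := hf_pos hε y
  rw [hf1, abs_div, abs_of_pos h3, abs_mul, abs_of_pos hπ]
  have h4 := Real.abs_cos_le_one (2 * π * y)
  calc π * |Real.cos (2 * π * y)| / hf ε y ≤ π * 1 / √ε := by gcongr
    _ = π / √ε := by ring

lemma hf2_le (hε : 0 < ε) (y : ℝ) : |hf2 ε y| ≤ 2 * π ^ 2 / √ε + π ^ 2 / √ε ^ 3 := by
  have hπ := Real.pi_pos
  have h1 := hf_ge (ε := ε) y
  have h2 : 0 < √ε := Real.sqrt_pos.mpr hε
  have h3 := hf_pos hε y
  rw [hf2]
  refine (abs_sub _ _).trans ?_
  have h4 := Real.abs_cos_le_one (2 * π * y)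
  have h5 := Real.abs_sin_le_one (2 * π * y)
  have e1 : |-(2 * π ^ 2 * Real.sin (2 * π * y)) / hf ε y| =
      2 * π ^ 2 * |Real.sin (2 * π * y)| / hf ε y := by
    rw [abs_div, abs_neg, abs_mul, abs_of_pos h3, abs_of_pos (by positivity : 0 < 2 * π ^ 2)]
  have e2 : |π ^ 2 * Real.cos (2 * π * y) ^ 2 / hf ε y ^ 3| =
      π ^ 2 * |Real.cos (2 * π * y)| ^ 2 / hf ε y ^ 3 := by
    rw [abs_div, abs_mul, abs_of_pos (by positivity : 0 < π ^ 2),
      abs_of_pos (by positivity : 0 < hf ε y ^ 3), abs_pow]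
  rw [e1, e2]
  have h6 : |Real.cos (2 * π * y)| ^ 2 ≤ 1 := by
    have := abs_nonneg (Real.cos (2 * π * y)); nlinarith
  calc 2 * π ^ 2 * |Real.sin (2 * π * y)| / hf ε y + π ^ 2 * |Real.cos (2 * π * y)| ^ 2 / hf ε y ^ 3
      ≤ 2 * π ^ 2 * 1 / √ε + π ^ 2 * 1 / √ε ^ 3 := by gcongr
    _ = _ := by ring

lemma om1_bdd (hε : 0 < ε) : ∃ C, ∀ y, |om1 ε y| ≤ C := by
  refine ⟨π / √ε + π / √ε, fun y => ?_⟩
  rw [om1]
  exact (abs_sub _ _).trans (add_le_add (hf1_le hε _) (hf1_le hε _))

lemma om2_bdd (hε : 0 < ε) : ∃ C, ∀ y, |om2 ε y| ≤ C := by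
  refine ⟨(2 * π ^ 2 / √ε + π ^ 2 / √ε ^ 3) + (2 * π ^ 2 / √ε + π ^ 2 / √ε ^ 3), fun y => ?_⟩
  rw [om2]
  exact (abs_add_le _ _).trans (add_le_add (hf2_le hε _) (hf2_le hε _))

lemma om_taylor (hε : 0 < ε) : ∃ M, 0 ≤ M ∧ ∀ y u,
    om ε (y + u) ^ 2 ≤ om ε y ^ 2 + 2 * om ε y * om1 ε y * u + M * u ^ 2 := by
  obtain ⟨C1, hC1⟩ := om1_bdd hε
  obtain ⟨C2, hC2⟩ := om2_bdd hε
  have hC1' : 0 ≤ C1 := (abs_nonneg _).trans (hC1 0)
  have hC2' : 0 ≤ C2 := (abs_nonneg _).trans (hC2 0)
  set B := 2 + 2 * √ε with hB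
  have hB0 : 0 ≤ B := by positivity
  set M := 2 * (C1 ^ 2 + B * C2) with hM
  have hM0 : 0 ≤ M := by positivity
  refine ⟨M, hM0, fun y u => ?_⟩
  -- derivative of `2 om om1`
  have hD : ∀ z, HasDerivAt (fun z => 2 * om ε z * om1 ε z)
      (2 * (om1 ε z * om1 ε z + om ε z * om2 ε z)) z := by
    intro z
    have := (((hasDerivAt_om hε z).const_mul 2).mul (hasDerivAt_om1 hε z))
    refine this.congr_deriv ?_
    ring
  have hDb : ∀ z, ‖2 * (om1 ε z * om1 ε z + om ε z * om2 ε z)‖ ≤ M := by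
    intro z
    rw [Real.norm_eq_abs, abs_mul, abs_of_pos (by norm_num : (0 : ℝ) < 2), hM]
    apply mul_le_mul_of_nonneg_left _ (by norm_num)
    refine (abs_add_le _ _).trans ?_
    rw [abs_mul, abs_mul]
    apply add_le_add
    · rw [sq]; exact mul_le_mul (hC1 z) (hC1 z) (abs_nonneg _) hC1'
    · apply mul_le_mul _ (hC2 z) (abs_nonneg _) hB0
      rw [abs_of_pos (om_pos hε z)]
      exact om_le_const hε z
  have hDL : ∀ z, |2 * om ε z * om1 ε z - 2 * om ε y * om1 ε y| ≤ M * |z - y| := by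
    intro z
    exact convex_univ.norm_image_sub_le_of_norm_hasDerivWithin_le
      (fun w _ => (hD w).hasDerivWithinAt) (fun w _ => hDb w) (mem_univ y) (mem_univ z)
  have hk : ∀ z ∈ Metric.closedBall y |u|,
      HasDerivWithinAt (fun z => om ε z ^ 2 - 2 * om ε y * om1 ε y * z)
      (2 * om ε z * om1 ε z - 2 * om ε y * om1 ε y) (Metric.closedBall y |u|) z := by
    intro z _
    have h1 := (hasDerivAt_om hε z).pow 2
    have h2 := (hasDerivAt_id z).const_mul (2 * om ε y * om1 ε y)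
    refine (h1.sub h2).hasDerivWithinAt.congr_deriv ?_
    simp
  have hkey := (convex_closedBall y |u|).norm_image_sub_le_of_norm_hasDerivWithin_le (C := M * |u|) hk
    (fun z hz => (hDL z).trans (mul_le_mul_of_nonneg_left (by
      rw [Metric.mem_closedBall, Real.dist_eq] at hz; exact hz) hM0))
    (Metric.mem_closedBall_self (abs_nonneg u)) (y := y + u) (by
      rw [Metric.mem_closedBall, Real.dist_eq]; simp)
  rw [Real.norm_eq_abs, Real.norm_eq_abs, add_sub_cancel_left] at hkey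
  have h3 := (le_abs_self _).trans hkey
  have h4 : M * |u| * |u| = M * u ^ 2 := by rw [mul_assoc, ← sq, sq_abs]
  rw [h4] at h3
  linarith

lemma continuous_om1 (hε : 0 < ε) : Continuous (om1 ε) :=
  continuous_iff_continuousAt.mpr fun y => (hasDerivAt_om1 hε y).continuousAt

/-- first variation in the `y`-direction -/
lemma var_y (hε : 0 < ε) {L : ℝ} (hL : 0 ≤ L) {x y : ℝ → ℝ} {K : ℝ≥0} (hx : LipschitzWith K x)
    (hy : LipschitzWith K y) (hg : IsGeo hε L x y) {ζ : ℝ → ℝ} {K' : ℝ≥0}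
    (hζ : LipschitzWith K' ζ) (h0 : ζ 0 = 0) (h1 : ζ L = 0) :
    ∫ t in (0 : ℝ)..L, (om ε (y t) * om1 ε (y t) * deriv x t ^ 2 * ζ t +
      deriv y t * deriv ζ t) = 0 := by
  have hπ := Real.pi_pos
  obtain ⟨M, hM0, hT⟩ := om_taylor hε
  have hx' : ∀ t, |deriv x t| ≤ K := fun t => norm_deriv_le_of_lipschitz hx
  have hy' : ∀ t, |deriv y t| ≤ K := fun t => norm_deriv_le_of_lipschitz hy
  have hζ' : ∀ t, |deriv ζ t| ≤ K' := fun t => norm_deriv_le_of_lipschitz hζ
  have mx := measurable_deriv x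
  have my := measurable_deriv y
  have mζ := measurable_deriv ζ
  have ix : IntervalIntegrable (fun t => deriv x t ^ 2) volume 0 L := by
    apply intervalIntegrable_of_bdd (mx.pow_const 2) (M := K ^ 2)
    intro t
    rw [abs_pow]
    exact pow_le_pow_left₀ (abs_nonneg _) (hx' t) 2
  have cA : Continuous fun t => om ε (y t) * om1 ε (y t) * ζ t :=
    (((contDiff_om hε).continuous.comp hy.continuous).mul
      ((continuous_om1 hε).comp hy.continuous)).mul hζ.continuous
  have i1 : IntervalIntegrable (fun t => om ε (y t) * om1 ε (y t) * deriv x t ^ 2 * ζ t)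
      volume 0 L := by
    have := ix.mul_continuousOn cA.continuousOn
    refine this.congr fun t _ => ?_
    ring
  have i2 : IntervalIntegrable (fun t => deriv y t * deriv ζ t) volume 0 L := by
    apply intervalIntegrable_of_bdd (my.mul mζ) (M := K * K')
    intro t
    simp only [Pi.mul_apply]
    rw [abs_mul]
    exact mul_le_mul (hy' t) (hζ' t) (abs_nonneg _) K.2
  have i3 : IntervalIntegrable (fun t => M * (ζ t ^ 2 * deriv x t ^ 2) + deriv ζ t ^ 2)
      volume 0 L := by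
    apply IntervalIntegrable.add
    · apply IntervalIntegrable.const_mul
      have := ix.mul_continuousOn (hζ.continuous.pow 2).continuousOn (f := fun t => deriv x t ^ 2)
        (g := fun t => ζ t ^ 2)
      refine this.congr fun t _ => ?_
      ring
    · apply intervalIntegrable_of_bdd (mζ.pow_const 2) (M := K' ^ 2)
      intro t
      rw [abs_pow]
      exact pow_le_pow_left₀ (abs_nonneg _) (hζ' t) 2
  have hle := energy_le hε hL hx hy hg
  have key : ∀ s : ℝ, 0 ≤ s * (2 * ∫ t in (0 : ℝ)..L, (om ε (y t) * om1 ε (y t) * deriv x t ^ 2 * ζ t +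
      deriv y t * deriv ζ t)) +
      s ^ 2 * ∫ t in (0 : ℝ)..L, (M * (ζ t ^ 2 * deriv x t ^ 2) + deriv ζ t ^ 2) := by
    intro s
    have hX : LipschitzWith (K + Real.nnabs s * K') (fun t => y t + s * ζ t) := by
      refine hy.add ?_
      apply LipschitzWith.of_dist_le_mul
      intro a b
      have := hζ.dist_le_mul a b
      rw [Real.dist_eq, Real.dist_eq] at *
      rw [← mul_sub, abs_mul]
      simp only [NNReal.coe_mul, Real.coe_nnabs]
      rw [mul_assoc]
      exact mul_le_mul_of_nonneg_left this (abs_nonneg _)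
    have hY : LipschitzWith (K + Real.nnabs s * K') x := hx.weaken le_self_add
    have hge := energy_ge hε hL hg hY hX rfl (by simp [h0]) rfl (by simp [h1])
    have hint := intervalIntegrable_en hε hY hX 0 L
    have e1 : ∫ t in (0 : ℝ)..L, en ε x (fun t => y t + s * ζ t) t ≤
        ∫ t in (0 : ℝ)..L, (en ε x y t + (s * (2 * (om ε (y t) * om1 ε (y t) * deriv x t ^ 2 * ζ t +
      deriv y t * deriv ζ t)) + s ^ 2 * (M * (ζ t ^ 2 * deriv x t ^ 2) + deriv ζ t ^ 2))) := by
      apply intervalIntegral.integral_mono_ae hL hint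
      · exact (intervalIntegrable_en hε hx hy 0 L).add
          ((((i1.add i2).const_mul 2).const_mul s).add (i3.const_mul _))
      · filter_upwards [hy.ae_differentiableAt_real, hζ.ae_differentiableAt_real] with t k1 k2
        have : deriv (fun t => y t + s * ζ t) t = deriv y t + s * deriv ζ t :=
          (k1.hasDerivAt.add (k2.hasDerivAt.const_mul s)).deriv
        unfold en
        rw [this]
        have h3 := hT (y t) (s * ζ t)
        have h4 := mul_le_mul_of_nonneg_right h3 (sq_nonneg (deriv x t))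
        nlinarith
    rw [intervalIntegral.integral_add (intervalIntegrable_en hε hx hy 0 L)
      ((((i1.add i2).const_mul 2).const_mul s).add (i3.const_mul _)),
      intervalIntegral.integral_add (((i1.add i2).const_mul 2).const_mul s) (i3.const_mul _),
      intervalIntegral.integral_const_mul, intervalIntegral.integral_const_mul,
      intervalIntegral.integral_const_mul] at e1
    have hπ2 : 0 < π ^ 2 := by positivity
    set I1 := ∫ t in (0 : ℝ)..L, (om ε (y t) * om1 ε (y t) * deriv x t ^ 2 * ζ t +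
      deriv y t * deriv ζ t)
    set I2 := ∫ t in (0 : ℝ)..L, (M * (ζ t ^ 2 * deriv x t ^ 2) + deriv ζ t ^ 2)
    set I0 := ∫ t in (0 : ℝ)..L, en ε x y t
    have h5 : π ^ 2 * (∫ t in (0 : ℝ)..L, en ε x (fun t => y t + s * ζ t) t) ≤
      π ^ 2 * (I0 + (s * (2 * I1) + s ^ 2 * I2)) := mul_le_mul_of_nonneg_left e1 hπ2.le
    have : 0 ≤ π ^ 2 * (s * (2 * I1) + s ^ 2 * I2) := by linarith
    exact nonneg_of_mul_nonneg_right this hπ2
  have := quad_zero key
  linarith

end T4

end KB
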