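import Pool.Agent.Helper42.KB.Geod3

/-!
# The geodesic equation for minimizing curves
-/

open Real MeasureTheory Set
open scoped ContDiff ENNReal NNReal

namespace KB

namespace T4

variable {ε : ℝ}

/-- if `deriv z` agrees a.e. with a continuous function, `z` is a primitive of it -/
lemma eq_primitive {L : ℝ} {z w : ℝ → ℝ} {K : ℝ≥0} (hz : LipschitzWith K z)
    (h : ∀ᵐ t, t ∈ Ioo 0 L → deriv z t = w t) :
    ∀ t ∈ Icc 0 L, z t = z 0 + ∫ s in (0 : ℝ)..t, w s := by
  intro t ht
  have h1 : AbsolutelyContinuousOnInterval z 0 t := hz.lipschitzOnWith.absolutelyContinuousOnInterval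
  have h2 := h1.integral_deriv_eq_sub
  have h3 : ∫ s in (0 : ℝ)..t, deriv z s = ∫ s in (0 : ℝ)..t, w s := by
    apply intervalIntegral.integral_congr_ae
    have h4 : ∀ᵐ s : ℝ, s ≠ t := by
      have : ({t} : Set ℝ)ᶜ ∈ ae (volume : Measure ℝ) := compl_mem_ae_iff.mpr (measure_singleton t)
      filter_upwards [this] with s hs
      exact hs
    filter_upwards [h, h4] with s hs hs' hI
    rw [uIoc_of_le ht.1] at hI
    exact hs ⟨hI.1, (lt_of_le_of_ne hI.2 hs').trans_le ht.2⟩
  linarith

lemma hasDerivAt_of_primitive {L : ℝ} {z w : ℝ → ℝ} (hw : Continuous w)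
    (h : ∀ t ∈ Icc 0 L, z t = z 0 + ∫ s in (0 : ℝ)..t, w s) :
    ∀ t ∈ Ioo 0 L, HasDerivAt z (w t) t := by
  intro t ht
  have h1 : HasDerivAt (fun t => z 0 + ∫ s in (0 : ℝ)..t, w s) (w t) t :=
    ((hw.integral_hasStrictDerivAt 0 t).hasDerivAt).const_add _
  refine h1.congr_of_eventuallyEq ?_
  filter_upwards [Ioo_mem_nhds ht.1 ht.2] with s hs
  exact h s ⟨hs.1.le, hs.2.le⟩

lemma const_aux {L : ℝ} {e : ℝ → ℝ} (hc : ContinuousOn e (Icc 0 L))
    (h : ∀ t ∈ Ioo 0 L, HasDerivAt e 0 t) : ∀ t ∈ Icc 0 L, e t = e 0 := by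
  intro t ht
  rcases ht.1.eq_or_lt with h0 | h0
  · rw [← h0]
  · obtain ⟨c, hcI, hc'⟩ := exists_hasDerivAt_eq_slope e (fun _ => 0) h0
      (hc.mono (Icc_subset_Icc le_rfl ht.2))
      (fun s hs => h s ⟨hs.1, hs.2.trans_le ht.2⟩)
    have : e t - e 0 = 0 := by
      have h2 : t - 0 ≠ 0 := by rw [sub_zero]; exact h0.ne'
      field_simp at hc'
      linarith
    linarith

theorem geo_ode (hε : 0 < ε) {L : ℝ} (hL : 0 < L) {x y : ℝ → ℝ} {K : ℝ≥0}
    (hx : LipschitzWith K x) (hy : LipschitzWith K y) (hg : IsGeo hε L x y) :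
    ∃ (J : ℝ) (v : ℝ → ℝ), Continuous v ∧ (∀ t ∈ Ioo 0 L, HasDerivAt y (v t) t) ∧
      (∀ t ∈ Ioo 0 L, HasDerivAt x (J / om ε (y t) ^ 2) t) ∧
      (∀ t ∈ Ioo 0 L, HasDerivAt v (J ^ 2 * om1 ε (y t) / om ε (y t) ^ 3) t) ∧
      (∀ t ∈ Icc 0 L, v t ^ 2 + J ^ 2 / om ε (y t) ^ 2 = 1 / π ^ 2) := by
  have hπ := Real.pi_pos
  have hx' : ∀ t, |deriv x t| ≤ K := fun t => norm_deriv_le_of_lipschitz hx
  have hy' : ∀ t, |deriv y t| ≤ K := fun t => norm_deriv_le_of_lipschitz hy
  have homc : Continuous fun t => om ε (y t) := (contDiff_om hε).continuous.comp hy.continuous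
  have hom1c : Continuous fun t => om1 ε (y t) := (continuous_om1 hε).comp hy.continuous
  have hom0 : ∀ t, om ε (y t) ≠ 0 := fun t => (om_pos hε _).ne'
  -- the first integral `J`
  obtain ⟨J, hJ⟩ := duBois (M := (2 + 2 * √ε) ^ 2 * K) hL
    ((homc.pow 2).measurable.mul (measurable_deriv x)) (by
      intro t _
      simp only [Pi.mul_apply]
      rw [abs_mul]
      refine mul_le_mul ?_ (hx' t) (abs_nonneg _) (by positivity)
      rw [abs_of_nonneg (sq_nonneg _)]
      exact pow_le_pow_left₀ (om_pos hε _).le (om_le_const hε _) 2)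
    (fun ζ K' hζ h0 h1 => by
      have := var_x hε hL.le hx hy hg hζ h0 h1
      simpa only [Pi.mul_apply, Pi.pow_apply] using this)
  simp only [Pi.mul_apply, Pi.pow_apply] at hJ
  have hJx : ∀ᵐ t, t ∈ Ioo 0 L → deriv x t = J / om ε (y t) ^ 2 := by
    filter_upwards [hJ] with t ht hI
    rw [eq_div_iff (pow_ne_zero 2 (hom0 t)), mul_comm]
    exact ht hI
  -- the force
  set f : ℝ → ℝ := fun t => J ^ 2 * om1 ε (y t) / om ε (y t) ^ 3 with hf
  have hfc : Continuous f :=
    (continuous_const.mul hom1c).div (homc.pow 3) (fun t => pow_ne_zero 3 (hom0 t))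
  set F : ℝ → ℝ := fun t => ∫ s in (0 : ℝ)..t, f s with hF
  have hFd : ∀ t, HasDerivAt F (f t) t := fun t => (hfc.integral_hasStrictDerivAt 0 t).hasDerivAt
  have hFc : Continuous F := continuous_iff_continuousAt.mpr fun t => (hFd t).continuousAt
  have hFac : AbsolutelyContinuousOnInterval F 0 L := by
    have : AbsolutelyContinuousOnInterval (fun t => ∫ s in (0 : ℝ)..t, f s) 0 L :=
      (hfc.intervalIntegrable 0 L).absolutelyContinuousOnInterval_intervalIntegral (by simp)
    exact this
  obtain ⟨B, hB⟩ := (isCompact_Icc (a := (0 : ℝ)) (b := L)).exists_bound_of_continuousOn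
    hFc.continuousOn
  obtain ⟨C, hC⟩ := duBois (M := K + B) (G := fun t => deriv y t - F t) hL
    ((measurable_deriv y).sub hFc.measurable) (by
      intro t ht
      refine (abs_sub _ _).trans (add_le_add (hy' t) ?_)
      exact hB t ht)
    (fun ζ K' hζ h0 h1 => by
      have hv := var_y hε hL.le hx hy hg hζ h0 h1
      have hζac : AbsolutelyContinuousOnInterval ζ 0 L :=
        hζ.lipschitzOnWith.absolutelyContinuousOnInterval
      have hζ' : ∀ t, |deriv ζ t| ≤ K' := fun t => norm_deriv_le_of_lipschitz hζ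
      have hp := hFac.integral_mul_deriv_eq_deriv_mul hζac
      rw [h0, h1, mul_zero, mul_zero, sub_zero, zero_sub] at hp
      have i2 : IntervalIntegrable (fun t => deriv y t * deriv ζ t) volume 0 L := by
        apply intervalIntegrable_of_bdd ((measurable_deriv y).mul (measurable_deriv ζ))
          (M := K * K')
        intro t
        simp only [Pi.mul_apply]
        rw [abs_mul]
        exact mul_le_mul (hy' t) (hζ' t) (abs_nonneg _) K.2
      have i3 : IntervalIntegrable (fun t => F t * deriv ζ t) volume 0 L :=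
        hζac.intervalIntegrable_deriv.continuousOn_mul hFc.continuousOn
      have i4 : IntervalIntegrable (fun t => f t * ζ t) volume 0 L :=
        (hfc.mul hζ.continuous).intervalIntegrable 0 L
      have e1 : ∫ t in (0 : ℝ)..L, (om ε (y t) * om1 ε (y t) * deriv x t ^ 2 * ζ t +
          deriv y t * deriv ζ t) = ∫ t in (0 : ℝ)..L, (f t * ζ t + deriv y t * deriv ζ t) := by
        apply intervalIntegral.integral_congr_ae
        have h4 : ∀ᵐ s : ℝ, s ≠ L := by
          have : ({L} : Set ℝ)ᶜ ∈ ae (volume : Measure ℝ) :=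
            compl_mem_ae_iff.mpr (measure_singleton L)
          filter_upwards [this] with s hs
          exact hs
        filter_upwards [hJx, h4] with t ht ht' hI
        rw [uIoc_of_le hL.le] at hI
        rw [ht ⟨hI.1, lt_of_le_of_ne hI.2 ht'⟩]
        have := hom0 t
        simp only [hf]
        field_simp
      have e2 : ∫ t in (0 : ℝ)..L, deriv F t * ζ t = ∫ t in (0 : ℝ)..L, f t * ζ t := by
        congr 1; funext t; rw [(hFd t).deriv]
      rw [e1, intervalIntegral.integral_add i4 i2] at hv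
      rw [e2] at hp
      have e3 : ∫ t in (0 : ℝ)..L, (deriv y t - F t) * deriv ζ t =
          (∫ t in (0 : ℝ)..L, deriv y t * deriv ζ t) - ∫ t in (0 : ℝ)..L, F t * deriv ζ t := by
        rw [← intervalIntegral.integral_sub i2 i3]
        congr 1; funext t; ring
      rw [e3, hp]; linarith)
  set v : ℝ → ℝ := fun t => F t + C with hv
  have hvc : Continuous v := hFc.add continuous_const
  have hyv : ∀ᵐ t, t ∈ Ioo 0 L → deriv y t = v t := by
    filter_upwards [hC] with t ht hI
    have := ht hI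
    simp only [hv]; linarith
  have hyD := hasDerivAt_of_primitive hvc (eq_primitive hy hyv)
  have hxD := hasDerivAt_of_primitive (w := fun t => J / om ε (y t) ^ 2)
    (continuous_const.div (homc.pow 2) fun t => pow_ne_zero 2 (hom0 t)) (eq_primitive hx hJx)
  have hvD : ∀ t, HasDerivAt v (f t) t := fun t => (hFd t).add_const C
  -- energy
  set e : ℝ → ℝ := fun t => v t ^ 2 + J ^ 2 / om ε (y t) ^ 2 with he
  have hec : Continuous e := (hvc.pow 2).add
    (continuous_const.div (homc.pow 2) fun t => pow_ne_zero 2 (hom0 t))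
  have heD : ∀ t ∈ Ioo 0 L, HasDerivAt e 0 t := by
    intro t ht
    have h1 := (hvD t).pow 2
    have h2 : HasDerivAt (fun t => om ε (y t)) (om1 ε (y t) * v t) t :=
      (hasDerivAt_om hε (y t)).comp t (hyD t ht)
    have h3 := (h2.pow 2).inv (pow_ne_zero 2 (hom0 t))
    have h4 := h1.add (h3.const_mul (J ^ 2))
    refine (h4.congr_deriv ?_).congr_of_eventuallyEq ?_
    · have := hom0 t
      simp only [hf, Pi.pow_apply]
      field_simp
      push_cast
      ring
    · filter_upwards with s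
      simp only [he]
      rfl
  have hecst : ∀ t ∈ Icc 0 L, e t = e 0 := by
    exact const_aux hec.continuousOn heD
  have hint : ∫ t in (0 : ℝ)..L, en ε x y t = L * e 0 := by
    have : ∫ t in (0 : ℝ)..L, en ε x y t = ∫ t in (0 : ℝ)..L, e 0 := by
      apply intervalIntegral.integral_congr_ae
      have h4 : ∀ᵐ s : ℝ, s ≠ L := by
        have : ({L} : Set ℝ)ᶜ ∈ ae (volume : Measure ℝ) :=
          compl_mem_ae_iff.mpr (measure_singleton L)
        filter_upwards [this] with s hs
        exact hs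
      filter_upwards [hJx, hyv, h4] with t h1 h2 h3 hI
      rw [uIoc_of_le hL.le] at hI
      have hI' : t ∈ Ioo 0 L := ⟨hI.1, lt_of_le_of_ne hI.2 h3⟩
      rw [← hecst t ⟨hI.1.le, hI.2⟩]
      unfold en
      rw [h1 hI', h2 hI']
      have := hom0 t
      simp only [he]
      field_simp
      ring
    rw [this]; simp
  have hle := energy_le hε hL.le hx hy hg
  have hge := energy_ge hε hL.le hg hx hy rfl rfl rfl rfl
  rw [hint] at hle hge
  have hev : e 0 = 1 / π ^ 2 := by
    rw [eq_div_iff (by positivity)]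
    have : L * (e 0 * π ^ 2) = L * 1 := by
      apply le_antisymm <;> nlinarith
    exact mul_left_cancel₀ hL.ne' this
  exact ⟨J, v, hvc, hyD, hxD, fun t _ => hvD t, fun t ht => (hecst t ht).trans hev⟩

end T4

end KB
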