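import Pool.Agent.Helper63.KB.Defs

/-!
# The profile functions `om ε` and the metrics `geps ε` on the Klein bottle
-/

open Real MeasureTheory Set
open scoped ContDiff ENNReal

namespace KB

namespace T4

variable (ε : ℝ)

/-- half of the profile -/
noncomputable def hf (y : ℝ) : ℝ := √(1 + ε + Real.sin (2 * π * y))

/-- derivative of `hf` -/
noncomputable def hf1 (y : ℝ) : ℝ := π * Real.cos (2 * π * y) / hf ε y

/-- second derivative of `hf` -/
noncomputable def hf2 (y : ℝ) : ℝ :=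
  -(2 * π ^ 2 * Real.sin (2 * π * y)) / hf ε y - π ^ 2 * Real.cos (2 * π * y) ^ 2 / hf ε y ^ 3

/-- the profile: twice the smoothed maximum of `|cos (π y)|` and `|sin (π y)|` -/
noncomputable def om (y : ℝ) : ℝ := hf ε y + hf ε (-y)

/-- derivative of the profile -/
noncomputable def om1 (y : ℝ) : ℝ := hf1 ε y - hf1 ε (-y)

/-- second derivative of the profile -/
noncomputable def om2 (y : ℝ) : ℝ := hf2 ε y + hf2 ε (-y)

variable {ε}

lemma rad_pos (hε : 0 < ε) (y : ℝ) : 0 < 1 + ε + Real.sin (2 * π * y) := by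
  have := Real.neg_one_le_sin (2 * π * y); linarith

lemma hf_pos (hε : 0 < ε) (y : ℝ) : 0 < hf ε y := Real.sqrt_pos.mpr (rad_pos hε y)

lemma hf_sq (hε : 0 < ε) (y : ℝ) : hf ε y ^ 2 = 1 + ε + Real.sin (2 * π * y) :=
  Real.sq_sqrt (rad_pos hε y).le

lemma hasDerivAt_lin (y : ℝ) : HasDerivAt (fun y : ℝ => 2 * π * y) (2 * π) y := by
  simpa using (hasDerivAt_id y).const_mul (2 * π)

lemma hasDerivAt_hf (hε : 0 < ε) (y : ℝ) : HasDerivAt (hf ε) (hf1 ε y) y := by
  have h1 : HasDerivAt (fun y : ℝ => 1 + ε + Real.sin (2 * π * y))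
      (Real.cos (2 * π * y) * (2 * π)) y := by
    simpa using ((hasDerivAt_lin y).sin).const_add (1 + ε)
  have h2 := h1.sqrt (rad_pos hε y).ne'
  refine h2.congr_deriv ?_
  rw [hf1, hf]
  have : √(1 + ε + Real.sin (2 * π * y)) ≠ 0 := (hf_pos hε y).ne'
  field_simp

lemma hasDerivAt_hf1 (hε : 0 < ε) (y : ℝ) : HasDerivAt (hf1 ε) (hf2 ε y) y := by
  have h1 : HasDerivAt (fun y : ℝ => π * Real.cos (2 * π * y))
      (π * (-Real.sin (2 * π * y) * (2 * π))) y := ((hasDerivAt_lin y).cos).const_mul π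
  have h2 := h1.div (hasDerivAt_hf hε y) (hf_pos hε y).ne'
  refine h2.congr_deriv ?_
  rw [hf1, hf2]
  have := (hf_pos hε y).ne'
  field_simp

lemma hf2_add (hε : 0 < ε) (y : ℝ) : 0 < hf2 ε y + π ^ 2 * hf ε y := by
  have h := hf_pos hε y
  have e : hf2 ε y + π ^ 2 * hf ε y = π ^ 2 * (2 * ε + ε ^ 2) / hf ε y ^ 3 := by
    rw [hf2]
    have h2 := hf_sq hε y
    have h3 := Real.sin_sq_add_cos_sq (2 * π * y)
    have hs : Real.sin (2 * π * y) = hf ε y ^ 2 - 1 - ε := by linarith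
    have hc : Real.cos (2 * π * y) ^ 2 = 1 - (hf ε y ^ 2 - 1 - ε) ^ 2 := by
      rw [← hs]; linarith
    rw [hs, hc]
    field_simp
    ring
  rw [e]
  positivity

lemma om_pos (hε : 0 < ε) (y : ℝ) : 0 < om ε y := add_pos (hf_pos hε y) (hf_pos hε _)

lemma hasDerivAt_om (hε : 0 < ε) (y : ℝ) : HasDerivAt (om ε) (om1 ε y) y := by
  have h1 := hasDerivAt_hf hε y
  have h2 : HasDerivAt (fun y => hf ε (-y)) (hf1 ε (-y) * (-1)) y :=
    (hasDerivAt_hf hε (-y)).comp y (hasDerivAt_neg y)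
  refine (h1.add h2).congr_deriv ?_
  rw [om1]; ring

lemma hasDerivAt_om1 (hε : 0 < ε) (y : ℝ) : HasDerivAt (om1 ε) (om2 ε y) y := by
  have h1 := hasDerivAt_hf1 hε y
  have h2 : HasDerivAt (fun y => hf1 ε (-y)) (hf2 ε (-y) * (-1)) y :=
    (hasDerivAt_hf1 hε (-y)).comp y (hasDerivAt_neg y)
  refine (h1.sub h2).congr_deriv ?_
  rw [om2]; ring

lemma om2_add (hε : 0 < ε) (y : ℝ) : 0 < om2 ε y + π ^ 2 * om ε y := by
  have h1 := hf2_add hε y
  have h2 := hf2_add hε (-y)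
  rw [om2, om]; linarith

lemma om_neg (y : ℝ) : om ε (-y) = om ε y := by
  rw [om, om, neg_neg, add_comm]

lemma hf_add_int (y : ℝ) (n : ℤ) : hf ε (y + n) = hf ε y := by
  rw [hf, hf]
  have : 2 * π * (y + n) = 2 * π * y + n * (2 * π) := by ring
  rw [this, Real.sin_add_int_mul_two_pi]

lemma om_add_int (y : ℝ) (n : ℤ) : om ε (y + n) = om ε y := by
  rw [om, om, hf_add_int]
  have : -(y + n) = -y + ((-n : ℤ) : ℝ) := by push_cast; ring
  rw [this, hf_add_int]

lemma om_deck (m n : ℤ) (y : ℝ) : om ε ((-1 : ℝ) ^ m * y + n) = om ε y := by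
  rw [om_add_int]
  rcases Int.even_or_odd m with h | h
  · rw [h.neg_one_zpow, one_mul]
  · rw [h.neg_one_zpow, neg_one_mul, om_neg]

lemma om_sq (hε : 0 < ε) (y : ℝ) :
    om ε y ^ 2 = 2 + 2 * ε + 2 * √((1 + ε) ^ 2 - Real.sin (2 * π * y) ^ 2) := by
  have h1 := hf_sq hε y
  have h2 := hf_sq hε (-y)
  have e1 : 2 * π * (-y) = -(2 * π * y) := by ring
  rw [e1, Real.sin_neg] at h2
  have h3 : hf ε y * hf ε (-y) = √((1 + ε) ^ 2 - Real.sin (2 * π * y) ^ 2) := by
    rw [hf, hf, e1, Real.sin_neg, ← Real.sqrt_mul (rad_pos hε y).le]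
    congr 1; ring
  rw [om, ← h3]
  nlinarith

lemma om_sq_ge (hε : 0 < ε) (y : ℝ) : 2 + 2 * |Real.cos (2 * π * y)| ≤ om ε y ^ 2 := by
  rw [om_sq hε]
  have : |Real.cos (2 * π * y)| ≤ √((1 + ε) ^ 2 - Real.sin (2 * π * y) ^ 2) := by
    apply Real.le_sqrt_of_sq_le
    rw [sq_abs]
    have := Real.sin_sq_add_cos_sq (2 * π * y)
    nlinarith
  linarith

lemma om_ge_cos (hε : 0 < ε) (y : ℝ) : 4 * Real.cos (π * y) ^ 2 ≤ om ε y ^ 2 := by
  have h1 := om_sq_ge hε y
  have h2 : Real.cos (2 * π * y) = 2 * Real.cos (π * y) ^ 2 - 1 := by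
    rw [← Real.cos_two_mul]; ring_nf
  have h3 := le_abs_self (Real.cos (2 * π * y))
  nlinarith

lemma om_ge_sin (hε : 0 < ε) (y : ℝ) : 4 * Real.sin (π * y) ^ 2 ≤ om ε y ^ 2 := by
  have h1 := om_sq_ge hε y
  have h2 : Real.cos (2 * π * y) = 2 * Real.cos (π * y) ^ 2 - 1 := by
    rw [← Real.cos_two_mul]; ring_nf
  have h3 := neg_abs_le (Real.cos (2 * π * y))
  have h4 := Real.sin_sq_add_cos_sq (π * y)
  nlinarith

lemma om_sq_ge_two (hε : 0 < ε) (y : ℝ) : 2 ≤ om ε y ^ 2 := by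
  have h1 := om_sq_ge hε y
  have := abs_nonneg (Real.cos (2 * π * y))
  linarith

lemma contDiff_hf (hε : 0 < ε) : ContDiff ℝ ∞ (hf ε) := by
  unfold hf
  refine ContDiff.sqrt ?_ (fun y => (rad_pos hε y).ne')
  fun_prop

lemma contDiff_om (hε : 0 < ε) : ContDiff ℝ ∞ (om ε) :=
  (contDiff_hf hε).add ((contDiff_hf hε).comp contDiff_neg)

lemma om_le (hε : 0 < ε) (y : ℝ) :
    om ε y ≤ 2 * max |Real.cos (π * y)| |Real.sin (π * y)| + 2 * √ε := by
  set c := Real.cos (π * y)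
  set s := Real.sin (π * y)
  have hs2 : Real.sin (2 * π * y) = 2 * s * c := by
    have : 2 * π * y = 2 * (π * y) := by ring
    rw [this, Real.sin_two_mul]
  have hsc : s ^ 2 + c ^ 2 = 1 := Real.sin_sq_add_cos_sq _
  have h1 : hf ε y ≤ |c + s| + √ε := by
    rw [hf, hs2]
    have e : (1 : ℝ) + ε + 2 * s * c = (c + s) ^ 2 + ε := by linarith
    rw [e]
    apply Real.sqrt_le_iff.mpr
    refine ⟨by positivity, ?_⟩
    have := Real.sq_sqrt hε.le
    nlinarith [sq_abs (c + s), abs_nonneg (c + s), Real.sqrt_nonneg ε,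
      mul_nonneg (abs_nonneg (c + s)) (Real.sqrt_nonneg ε)]
  have h2 : hf ε (-y) ≤ |c - s| + √ε := by
    have e1 : 2 * π * (-y) = -(2 * π * y) := by ring
    rw [hf, e1, Real.sin_neg, hs2]
    have e : (1 : ℝ) + ε + -(2 * s * c) = (c - s) ^ 2 + ε := by linarith
    rw [e]
    apply Real.sqrt_le_iff.mpr
    refine ⟨by positivity, ?_⟩
    have := Real.sq_sqrt hε.le
    nlinarith [sq_abs (c - s), abs_nonneg (c - s), Real.sqrt_nonneg ε,
      mul_nonneg (abs_nonneg (c - s)) (Real.sqrt_nonneg ε)]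
  have h3 : |c + s| + |c - s| ≤ 2 * max |c| |s| := by
    rcases abs_cases (c + s) with ⟨ha, _⟩ | ⟨ha, _⟩ <;> rcases abs_cases (c - s) with ⟨hb, _⟩ | ⟨hb, _⟩
    all_goals
      rw [ha, hb]
      have k1 := le_max_left |c| |s|
      have k2 := le_max_right |c| |s|
      have k3 := le_abs_self c
      have k4 := neg_abs_le c
      have k5 := le_abs_self s
      have k6 := neg_abs_le s
      linarith
  rw [om]; linarith

end T4

open T4

/-- The metric `4π² w(πy)² dx² + π² dy²`, where `om ε y = 2 w (π y)`. -/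
noncomputable def geps (ε : ℝ) (hε : 0 < ε) : RMetric where
  E p := π ^ 2 * om ε p.2 ^ 2
  F _ := 0
  G _ := π ^ 2
  smooth_E := contDiff_const.mul (((contDiff_om hε).comp contDiff_snd).pow 2)
  smooth_F := contDiff_const
  smooth_G := contDiff_const
  pos_E p := by have := om_pos hε p.2; positivity
  pos_det p := by
    have := om_pos hε p.2
    have h : 0 < π ^ 2 * om ε p.2 ^ 2 * π ^ 2 := by positivity
    simpa using h
  inv_E m n p := by simp only [deck, om_deck]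
  inv_F m n p := by simp
  inv_G m n p := rfl

end KB
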