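import Pool.Agent.Helper42.KB.Calib

/-!
# Orbits of the deck group are `π`-separated for the metrics `geps`
-/

open Real MeasureTheory Set
open scoped ContDiff ENNReal NNReal

namespace KB

namespace T4

variable {ε : ℝ}

/-- the coordinate function of the sphere towards the point `(x₀, y₀)` -/
noncomputable def uu (a x₀ y₀ : ℝ) (p : ℝ × ℝ) : ℝ :=
  Real.cos (π * (y₀ - a)) * (Real.cos (π * (p.2 - a)) * Real.cos (2 * π * (p.1 - x₀))) +
    Real.sin (π * (y₀ - a)) * Real.sin (π * (p.2 - a))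

lemma contDiff_uu (a x₀ y₀ : ℝ) : ContDiff ℝ 1 (uu a x₀ y₀) := by
  unfold uu
  fun_prop

lemma fderiv_uu (a x₀ y₀ : ℝ) (p v : ℝ × ℝ) :
    fderiv ℝ (uu a x₀ y₀) p v =
      2 * π * Real.cos (π * (p.2 - a)) * v.1 *
        (-(Real.cos (π * (y₀ - a)) * Real.sin (2 * π * (p.1 - x₀)))) +
      π * v.2 * (Real.sin (π * (y₀ - a)) * Real.cos (π * (p.2 - a)) -
        Real.cos (π * (y₀ - a)) * Real.sin (π * (p.2 - a)) * Real.cos (2 * π * (p.1 - x₀))) := by
  have h1 : HasFDerivAt (fun p : ℝ × ℝ => 2 * π * (p.1 - x₀))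
      ((2 * π) • ContinuousLinearMap.fst ℝ ℝ ℝ) p := by
    simpa using (hasFDerivAt_fst (𝕜 := ℝ) (p := p)).sub_const x₀ |>.const_mul (2 * π)
  have h2 : HasFDerivAt (fun p : ℝ × ℝ => π * (p.2 - a))
      (π • ContinuousLinearMap.snd ℝ ℝ ℝ) p := by
    simpa using (hasFDerivAt_snd (𝕜 := ℝ) (p := p)).sub_const a |>.const_mul π
  have h3 := ((h2.cos.mul h1.cos).const_mul (Real.cos (π * (y₀ - a)))).add
    (h2.sin.const_mul (Real.sin (π * (y₀ - a))))
  have h4 : fderiv ℝ (uu a x₀ y₀) p = _ := HasFDerivAt.fderiv h3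
  rw [h4]
  simp
  ring

lemma uu_identity (a x₀ y₀ : ℝ) (p : ℝ × ℝ) :
    (Real.cos (π * (y₀ - a)) * Real.sin (2 * π * (p.1 - x₀))) ^ 2 +
      (Real.sin (π * (y₀ - a)) * Real.cos (π * (p.2 - a)) -
        Real.cos (π * (y₀ - a)) * Real.sin (π * (p.2 - a)) * Real.cos (2 * π * (p.1 - x₀))) ^ 2 =
      1 - uu a x₀ y₀ p ^ 2 := by
  unfold uu
  have h1 := Real.sin_sq_add_cos_sq (π * (y₀ - a))
  have h2 := Real.sin_sq_add_cos_sq (π * (p.2 - a))
  have h3 := Real.sin_sq_add_cos_sq (2 * π * (p.1 - x₀))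
  set S0 := Real.sin (π * (y₀ - a))
  set C0 := Real.cos (π * (y₀ - a))
  set S := Real.sin (π * (p.2 - a))
  set C := Real.cos (π * (p.2 - a))
  set s := Real.sin (2 * π * (p.1 - x₀))
  set c := Real.cos (2 * π * (p.1 - x₀))
  have e1 : s ^ 2 = 1 - c ^ 2 := by linarith
  have e2 : S ^ 2 = 1 - C ^ 2 := by linarith
  have e3 : S0 ^ 2 = 1 - C0 ^ 2 := by linarith
  linear_combination (C0 ^ 2) * e1 + (S0 ^ 2 + C0 ^ 2 * c ^ 2) * e2 + e3

/-- gradient bound -/
lemma fderiv_uu_le (hε : 0 < ε) {a : ℝ} (ha : ∀ y, 4 * Real.cos (π * (y - a)) ^ 2 ≤ om ε y ^ 2)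
    (x₀ y₀ : ℝ) (p v : ℝ × ℝ) :
    |fderiv ℝ (uu a x₀ y₀) p v| ≤ √(1 - uu a x₀ y₀ p ^ 2) * (geps ε hε).norm p v := by
  have hπ := Real.pi_pos
  rw [fderiv_uu, norm_geps, ← uu_identity]
  set A := -(Real.cos (π * (y₀ - a)) * Real.sin (2 * π * (p.1 - x₀))) with hA
  set B := Real.sin (π * (y₀ - a)) * Real.cos (π * (p.2 - a)) -
        Real.cos (π * (y₀ - a)) * Real.sin (π * (p.2 - a)) * Real.cos (2 * π * (p.1 - x₀))
  have hA2 : (Real.cos (π * (y₀ - a)) * Real.sin (2 * π * (p.1 - x₀))) ^ 2 = A ^ 2 := by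
    rw [hA]; ring
  rw [hA2]
  have h1 := ha p.2
  have h2 : |2 * π * Real.cos (π * (p.2 - a)) * v.1 * A + π * v.2 * B| =
      π * |2 * Real.cos (π * (p.2 - a)) * v.1 * A + v.2 * B| := by
    rw [← abs_of_pos hπ, ← abs_mul, abs_of_pos hπ]
    congr 1; ring
  rw [h2, mul_left_comm]
  apply mul_le_mul_of_nonneg_left _ hπ.le
  rw [← Real.sqrt_mul (by positivity)]
  apply Real.abs_le_sqrt
  have h3 : (2 * Real.cos (π * (p.2 - a)) * v.1) ^ 2 ≤ om ε p.2 ^ 2 * v.1 ^ 2 := by
    have : (2 * Real.cos (π * (p.2 - a)) * v.1) ^ 2 = 4 * Real.cos (π * (p.2 - a)) ^ 2 * v.1 ^ 2 := by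
      ring
    rw [this]
    exact mul_le_mul_of_nonneg_right h1 (sq_nonneg _)
  have h4 : (2 * Real.cos (π * (p.2 - a)) * v.1 * A + v.2 * B) ^ 2 ≤
      (A ^ 2 + B ^ 2) * ((2 * Real.cos (π * (p.2 - a)) * v.1) ^ 2 + v.2 ^ 2) := by
    nlinarith [sq_nonneg (2 * Real.cos (π * (p.2 - a)) * v.1 * B - v.2 * A)]
  refine h4.trans ?_
  apply mul_le_mul_of_nonneg_left _ (by positivity)
  linarith

lemma uu_sq_le (a x₀ y₀ : ℝ) (p : ℝ × ℝ) : uu a x₀ y₀ p ^ 2 ≤ 1 := by
  have := uu_identity a x₀ y₀ p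
  nlinarith [sq_nonneg (Real.cos (π * (y₀ - a)) * Real.sin (2 * π * (p.1 - x₀))),
    sq_nonneg (Real.sin (π * (y₀ - a)) * Real.cos (π * (p.2 - a)) -
        Real.cos (π * (y₀ - a)) * Real.sin (π * (p.2 - a)) * Real.cos (2 * π * (p.1 - x₀)))]

/-- distance between points with antipodal images in the sphere -/
lemma antipodal (hε : 0 < ε) {a : ℝ} (ha : ∀ y, 4 * Real.cos (π * (y - a)) ^ 2 ≤ om ε y ^ 2)
    {p q : ℝ × ℝ} (h : uu a p.1 p.2 q = -1) : π ≤ (geps ε hε).dist p q := by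
  have hp : uu a p.1 p.2 p = 1 := by
    unfold uu
    have := Real.sin_sq_add_cos_sq (π * (p.2 - a))
    simp only [sub_self, mul_zero, Real.cos_zero, mul_one]
    nlinarith
  -- for every `l < 1`
  have key : ∀ l : ℝ, 0 < l → l < 1 → 2 * Real.arcsin l ≤ (geps ε hε).dist p q := by
    intro l hl0 hl1
    have hu : ∀ z, -1 < l * uu a p.1 p.2 z ∧ l * uu a p.1 p.2 z < 1 := by
      intro z
      have h1 := uu_sq_le a p.1 p.2 z
      have h2 : |uu a p.1 p.2 z| ≤ 1 := by
        rw [← sq_abs] at h1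
        nlinarith [abs_nonneg (uu a p.1 p.2 z)]
      rw [abs_le] at h2
      constructor <;> nlinarith [h2.1, h2.2]
    have hC : ContDiff ℝ 1 (fun z => -Real.arcsin (l * uu a p.1 p.2 z)) := by
      apply ContDiff.neg
      rw [contDiff_iff_contDiffAt]
      intro z
      have h1 : ContDiffAt ℝ 1 Real.arcsin (l * uu a p.1 p.2 z) :=
        Real.contDiffAt_arcsin (hu z).1.ne' (hu z).2.ne
      have h2 : ContDiffAt ℝ 1 (fun z => l * uu a p.1 p.2 z) z :=
        (contDiff_const.mul (contDiff_uu a p.1 p.2)).contDiffAt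
      exact ContDiffAt.comp (g := Real.arcsin) z h1 h2
    have hcal := calib_dist hε hC ?_ p q
    · rw [h, hp] at hcal
      simp only [mul_neg, mul_one, Real.arcsin_neg, neg_neg, sub_neg_eq_add] at hcal
      linarith
    · intro z v
      have hud : HasFDerivAt (uu a p.1 p.2) (fderiv ℝ (uu a p.1 p.2) z) z :=
        ((contDiff_uu a p.1 p.2).differentiable one_ne_zero z).hasFDerivAt
      have h1 := (Real.hasDerivAt_arcsin (hu z).1.ne' (hu z).2.ne).comp_hasFDerivAt z
        (hud.const_mul l)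
      have h2 : fderiv ℝ (fun z => -Real.arcsin (l * uu a p.1 p.2 z)) z = _ := (h1.neg).fderiv
      rw [h2]
      simp only [neg_apply, smul_apply, smul_eq_mul]
      have h3 := fderiv_uu_le hε ha p.1 p.2 z v
      have hN : 0 ≤ (geps ε hε).norm z v := Real.sqrt_nonneg _
      set N := (geps ε hε).norm z v
      set D := fderiv ℝ (uu a p.1 p.2) z v
      set u := uu a p.1 p.2 z
      have hu2 : u ^ 2 ≤ 1 := uu_sq_le a p.1 p.2 z
      have hpos : 0 < 1 - (l * u) ^ 2 := by
        have := hu z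
        nlinarith [this.1, this.2]
      have h4 : l * √(1 - u ^ 2) ≤ √(1 - (l * u) ^ 2) := by
        rw [← Real.sqrt_sq hl0.le, ← Real.sqrt_mul (by positivity), Real.sqrt_sq hl0.le]
        apply Real.sqrt_le_sqrt
        nlinarith
      have h5 : 0 < √(1 - (l * u) ^ 2) := Real.sqrt_pos.mpr hpos
      have h6 : -(1 / √(1 - (l * u) ^ 2) * (l * D)) ≤
          1 / √(1 - (l * u) ^ 2) * (l * (√(1 - u ^ 2) * N)) := by
        have e1 : -(1 / √(1 - (l * u) ^ 2) * (l * D)) = 1 / √(1 - (l * u) ^ 2) * (l * (-D)) := by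
          ring
        rw [e1]
        apply mul_le_mul_of_nonneg_left _ (by positivity)
        apply mul_le_mul_of_nonneg_left _ hl0.le
        exact (neg_le_abs D).trans h3
      refine h6.trans ?_
      rw [← mul_assoc, ← mul_assoc]
      have h7 : 1 / √(1 - (l * u) ^ 2) * l * √(1 - u ^ 2) ≤ 1 := by
        rw [mul_assoc, one_div, inv_mul_le_iff₀ h5, mul_one]
        exact h4
      calc _ ≤ 1 * N := mul_le_mul_of_nonneg_right h7 hN
        _ = N := one_mul N
  -- let `l → 1`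
  have hlim : Filter.Tendsto (fun l : ℝ => 2 * Real.arcsin l) (nhdsWithin 1 (Iio 1))
      (nhds (2 * Real.arcsin 1)) :=
    ((Real.continuous_arcsin.tendsto 1).const_mul 2).mono_left nhdsWithin_le_nhds
  rw [Real.arcsin_one, show 2 * (π / 2) = π by ring] at hlim
  refine le_of_tendsto hlim ?_
  have : Ioo (0 : ℝ) 1 ∈ nhdsWithin (1 : ℝ) (Iio 1) := Ioo_mem_nhdsLT (by norm_num)
  filter_upwards [this] with l hl
  exact key l hl.1 hl.2

/-- the coordinate `π y` is a calibration -/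
lemma dist_ge_y (hε : 0 < ε) (p q : ℝ × ℝ) : π * |q.2 - p.2| ≤ (geps ε hε).dist p q := by
  have hπ := Real.pi_pos
  have key : ∀ s : ℝ, |s| = 1 → s * π * (q.2 - p.2) ≤ (geps ε hε).dist p q := by
    intro s hs
    have hd : ∀ z, HasFDerivAt (fun z : ℝ × ℝ => s * π * z.2)
        ((s * π) • ContinuousLinearMap.snd ℝ ℝ ℝ) z := fun z => by
      simpa using (hasFDerivAt_snd (𝕜 := ℝ) (p := z)).const_mul (s * π)
    have := calib_dist hε (Φ := fun z => s * π * z.2) (by fun_prop) ?_ p q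
    · linarith
    · intro z v
      rw [(hd z).fderiv, norm_geps]
      simp only [smul_apply, ContinuousLinearMap.coe_snd', smul_eq_mul]
      rw [mul_right_comm, mul_comm]
      apply mul_le_mul_of_nonneg_left _ hπ.le
      have h1 : |s * v.2| = |v.2| := by rw [abs_mul, hs, one_mul]
      refine (le_abs_self _).trans ?_
      rw [h1]
      apply Real.abs_le_sqrt
      nlinarith [sq_nonneg (om ε z.2 * v.1)]
  rcases abs_cases (q.2 - p.2) with ⟨h, _⟩ | ⟨h, _⟩
  · rw [h]
    have := key 1 (by simp)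
    linarith
  · rw [h]
    have := key (-1) (by simp)
    linarith

/-- the coordinate `π √2 x` is a calibration -/
lemma dist_ge_x (hε : 0 < ε) (p q : ℝ × ℝ) : π * √2 * |q.1 - p.1| ≤ (geps ε hε).dist p q := by
  have hπ := Real.pi_pos
  have key : ∀ s : ℝ, |s| = 1 → s * (π * √2) * (q.1 - p.1) ≤ (geps ε hε).dist p q := by
    intro s hs
    have hd : ∀ z, HasFDerivAt (fun z : ℝ × ℝ => s * (π * √2) * z.1)
        ((s * (π * √2)) • ContinuousLinearMap.fst ℝ ℝ ℝ) z := fun z => by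
      simpa using (hasFDerivAt_fst (𝕜 := ℝ) (p := z)).const_mul (s * (π * √2))
    have := calib_dist hε (Φ := fun z => s * (π * √2) * z.1) (by fun_prop) ?_ p q
    · linarith
    · intro z v
      rw [(hd z).fderiv, norm_geps]
      simp only [smul_apply, ContinuousLinearMap.coe_fst', smul_eq_mul]
      rw [show s * (π * √2) * v.1 = π * (√2 * (s * v.1)) by ring]
      apply mul_le_mul_of_nonneg_left _ hπ.le
      have h1 : |√2 * (s * v.1)| = |√2 * v.1| := by rw [abs_mul, abs_mul, hs, one_mul, abs_mul]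
      refine (le_abs_self _).trans ?_
      rw [h1]
      apply Real.abs_le_sqrt
      have h2 := om_sq_ge_two hε z.2
      rw [mul_pow, Real.sq_sqrt (by norm_num)]
      nlinarith [sq_nonneg v.1, sq_nonneg v.2]
  rcases abs_cases (q.1 - p.1) with ⟨h, _⟩ | ⟨h, _⟩
  · rw [h]
    have := key 1 (by simp)
    linarith
  · rw [h]
    have := key (-1) (by simp)
    linarith

/-- Orbits are `π`-separated. -/
theorem sep (hε : 0 < ε) (p : ℝ × ℝ) {m n : ℤ} (hmn : (m, n) ≠ (0, 0)) :
    π ≤ (geps ε hε).dist p (deck m n p) := by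
  have hπ := Real.pi_pos
  rcases Int.even_or_odd m with hm | hm
  · by_cases hn : n = 0
    · have hm0 : m ≠ 0 := by rintro rfl; exact hmn (by rw [hn])
      obtain ⟨k, rfl⟩ := hm
      have hk : k ≠ 0 := by rintro rfl; exact hm0 (by ring)
      have h1 := dist_ge_x hε p (deck (k + k) n p)
      have h2 : |(deck (k + k) n p).1 - p.1| = |(k : ℝ)| := by
        congr 1
        simp only [deck]; push_cast; ring
      rw [h2] at h1
      have h3 : (1 : ℝ) ≤ |(k : ℝ)| := by
        have : (1 : ℤ) ≤ |k| := Int.one_le_abs hk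
        exact_mod_cast this
      have h4 : 1 ≤ √2 := Real.one_le_sqrt.mpr (by norm_num)
      have h5 : π * 1 * 1 ≤ π * √2 * |(k : ℝ)| := by gcongr
      linarith
    · have h1 := dist_ge_y hε p (deck m n p)
      have h2 : |(deck m n p).2 - p.2| = |(n : ℝ)| := by
        congr 1
        simp only [deck, hm.neg_one_zpow]; ring
      rw [h2] at h1
      have h3 : (1 : ℝ) ≤ |(n : ℝ)| := by
        have : (1 : ℤ) ≤ |n| := Int.one_le_abs hn
        exact_mod_cast this
      nlinarith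
  · have hcx : Real.cos (2 * π * ((deck m n p).1 - p.1)) = -1 := by
      obtain ⟨k, rfl⟩ := hm
      have : 2 * π * ((deck (2 * k + 1) n p).1 - p.1) = π + k * (2 * π) := by
        simp only [deck]; push_cast; ring
      rw [this, Real.cos_add_int_mul_two_pi, Real.cos_pi]
    rcases Int.even_or_odd n with hn | hn
    · refine antipodal hε (a := 0) (fun y => by simpa using om_ge_cos hε y) ?_
      obtain ⟨k, rfl⟩ := hn
      have e1 : π * ((deck m (k + k) p).2 - 0) = -(π * (p.2 - 0)) + k * (2 * π) := by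
        simp only [deck, hm.neg_one_zpow]; push_cast; ring
      unfold uu
      rw [hcx, e1, Real.cos_add_int_mul_two_pi, Real.sin_add_int_mul_two_pi, Real.cos_neg,
        Real.sin_neg]
      have := Real.sin_sq_add_cos_sq (π * (p.2 - 0))
      nlinarith
    · refine antipodal hε (a := 1 / 2) (fun y => ?_) ?_
      · have h1 : Real.cos (π * (y - 1 / 2)) = Real.sin (π * y) := by
          rw [show π * (y - 1 / 2) = π * y - π / 2 by ring, Real.cos_sub_pi_div_two]
        rw [h1]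
        exact om_ge_sin hε y
      obtain ⟨k, rfl⟩ := hn
      have e1 : π * ((deck m (2 * k + 1) p).2 - 1 / 2) = -(π * (p.2 - 1 / 2)) + k * (2 * π) := by
        simp only [deck, hm.neg_one_zpow]; push_cast; ring
      unfold uu
      rw [hcx, e1, Real.cos_add_int_mul_two_pi, Real.sin_add_int_mul_two_pi, Real.cos_neg,
        Real.sin_neg]
      have := Real.sin_sq_add_cos_sq (π * (p.2 - 1 / 2))
      nlinarith

end T4

end KB
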