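import Pool.Agent.Helper42.KB.Geod4
import Pool.Agent.Helper53.KB.Quot

/-!
# Uniqueness of shortest paths of the metrics `geps` up to distance `π/2`
-/

open Real MeasureTheory Set
open scoped ContDiff ENNReal NNReal

namespace KB

namespace T4

variable {ε : ℝ}

/-- a primitive of `om` -/
noncomputable def Sf (ε y : ℝ) : ℝ := ∫ s in (0 : ℝ)..y, om ε s

lemma hasDerivAt_Sf (hε : 0 < ε) (y : ℝ) : HasDerivAt (Sf ε) (om ε y) y :=
  ((contDiff_om hε).continuous.integral_hasStrictDerivAt 0 y).hasDerivAt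

lemma strictMono_Sf (hε : 0 < ε) : StrictMono (Sf ε) := by
  apply strictMono_of_deriv_pos
  intro y
  rw [(hasDerivAt_Sf hε y).deriv]
  exact om_pos hε y

lemma mono_T (hε : 0 < ε) : Monotone fun y => om1 ε y + π ^ 2 * Sf ε y := by
  have h : ∀ y, HasDerivAt (fun y => om1 ε y + π ^ 2 * Sf ε y) (om2 ε y + π ^ 2 * om ε y) y :=
    fun y => (hasDerivAt_om1 hε y).add ((hasDerivAt_Sf hε y).const_mul _)
  apply monotone_of_deriv_nonneg
  · exact fun y => (h y).differentiableAt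
  · intro y
    rw [(h y).deriv]
    exact (om2_add hε y).le

lemma prod_ge (hε : 0 < ε) (a b : ℝ) :
    -(Sf ε a - Sf ε b) ^ 2 ≤ (Sf ε a - Sf ε b) * ((om1 ε a - om1 ε b) / π ^ 2) := by
  have hπ := Real.pi_pos
  have h1 : 0 ≤ (Sf ε a - Sf ε b) * ((om1 ε a + π ^ 2 * Sf ε a) - (om1 ε b + π ^ 2 * Sf ε b)) := by
    rcases le_total a b with h | h
    · exact mul_nonneg_of_nonpos_of_nonpos (sub_nonpos.mpr ((strictMono_Sf hε).monotone h))
        (sub_nonpos.mpr (mono_T hε h))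
    · exact mul_nonneg (sub_nonneg.mpr ((strictMono_Sf hε).monotone h))
        (sub_nonneg.mpr (mono_T hε h))
  have h2 : (Sf ε a - Sf ε b) * ((om1 ε a - om1 ε b) / π ^ 2) + (Sf ε a - Sf ε b) ^ 2 =
      (Sf ε a - Sf ε b) * ((om1 ε a + π ^ 2 * Sf ε a) - (om1 ε b + π ^ 2 * Sf ε b)) / π ^ 2 := by
    field_simp; ring
  have h3 : 0 ≤ (Sf ε a - Sf ε b) *
      ((om1 ε a + π ^ 2 * Sf ε a) - (om1 ε b + π ^ 2 * Sf ε b)) / π ^ 2 := by positivity
  linarith

theorem geo_unique_aux (hε : 0 < ε) {L : ℝ} (hL : 0 < L) (hLπ : L < π) {x₀ y₀ x₁ y₁ : ℝ → ℝ}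
    {K : ℝ≥0} (hx₀ : LipschitzWith K x₀) (hy₀ : LipschitzWith K y₀) (hx₁ : LipschitzWith K x₁)
    (hy₁ : LipschitzWith K y₁) (hg₀ : IsGeo hε L x₀ y₀) (hg₁ : IsGeo hε L x₁ y₁)
    (ex0 : x₀ 0 = x₁ 0) (ey0 : y₀ 0 = y₁ 0) (ex1 : x₀ L = x₁ L) (ey1 : y₀ L = y₁ L) :
    ∀ t ∈ Icc 0 L, x₀ t = x₁ t ∧ y₀ t = y₁ t := by
  have hπ := Real.pi_pos
  obtain ⟨J₀, v₀, hv₀c, hy₀D, hx₀D, hv₀D, he₀⟩ := geo_ode hε hL hx₀ hy₀ hg₀
  obtain ⟨J₁, v₁, hv₁c, hy₁D, hx₁D, hv₁D, he₁⟩ := geo_ode hε hL hx₁ hy₁ hg₁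
  have homc := (contDiff_om hε).continuous
  have hSc : Continuous (Sf ε) :=
    continuous_iff_continuousAt.mpr fun y => (hasDerivAt_Sf hε y).continuousAt
  set Z : ℝ → ℝ := fun t => Sf ε (y₀ t) - Sf ε (y₁ t) with hZ
  set P : ℝ → ℝ := fun t => om ε (y₀ t) * v₀ t - om ε (y₁ t) * v₁ t with hP
  have hZc : Continuous Z := (hSc.comp hy₀.continuous).sub (hSc.comp hy₁.continuous)
  have hPc : Continuous P := ((homc.comp hy₀.continuous).mul hv₀c).sub
    ((homc.comp hy₁.continuous).mul hv₁c)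
  have hZD : ∀ t ∈ Ioo 0 L, HasDerivAt Z (P t) t := fun t ht =>
    ((hasDerivAt_Sf hε _).comp t (hy₀D t ht)).sub ((hasDerivAt_Sf hε _).comp t (hy₁D t ht))
  have aux : ∀ (J : ℝ) (y v : ℝ → ℝ) (t : ℝ), HasDerivAt y (v t) t →
      HasDerivAt v (J ^ 2 * om1 ε (y t) / om ε (y t) ^ 3) t →
      v t ^ 2 + J ^ 2 / om ε (y t) ^ 2 = 1 / π ^ 2 →
      HasDerivAt (fun t => om ε (y t) * v t) (om1 ε (y t) / π ^ 2) t := by
    intro J y v t h1 h2 h3
    have h4 : HasDerivAt (fun t => om ε (y t)) (om1 ε (y t) * v t) t :=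
      (hasDerivAt_om hε (y t)).comp t h1
    refine (h4.mul h2).congr_deriv ?_
    have h5 := (om_pos hε (y t)).ne'
    have h6 : om1 ε (y t) / π ^ 2 = om1 ε (y t) * (v t ^ 2 + J ^ 2 / om ε (y t) ^ 2) := by
      rw [h3]; ring
    rw [h6]
    field_simp
  have hPD : ∀ t ∈ Ioo 0 L, HasDerivAt P ((om1 ε (y₀ t) - om1 ε (y₁ t)) / π ^ 2) t := by
    intro t ht
    have h1 := aux J₀ y₀ v₀ t (hy₀D t ht) (hv₀D t ht) (he₀ t ⟨ht.1.le, ht.2.le⟩)
    have h2 := aux J₁ y₁ v₁ t (hy₁D t ht) (hv₁D t ht) (he₁ t ⟨ht.1.le, ht.2.le⟩)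
    refine (h1.sub h2).congr_deriv ?_
    ring
  have hw : ∀ t ∈ Icc 0 L, 0 < Real.cos (t - L / 2) := fun t ht =>
    Real.cos_pos_of_mem_Ioo ⟨by linarith [ht.1], by linarith [ht.2]⟩
  have hwD : ∀ t, HasDerivAt (fun t => Real.cos (t - L / 2)) (-Real.sin (t - L / 2)) t := fun t => by
    have := (Real.hasDerivAt_cos (t - L / 2)).comp t ((hasDerivAt_id t).sub_const (L / 2))
    rw [mul_one] at this
    exact this
  have huD : ∀ t, HasDerivAt (fun t => Real.sin (t - L / 2)) (Real.cos (t - L / 2)) t := fun t => by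
    have := (Real.hasDerivAt_sin (t - L / 2)).comp t ((hasDerivAt_id t).sub_const (L / 2))
    rw [mul_one] at this
    exact this
  set Φ : ℝ → ℝ := fun t => Z t * P t + Z t ^ 2 * (Real.sin (t - L / 2) / Real.cos (t - L / 2))
    with hΦ
  have hsc : Continuous fun t => Real.sin (t - L / 2) := by fun_prop
  have hcc : Continuous fun t => Real.cos (t - L / 2) := by fun_prop
  have hΦc : ContinuousOn Φ (Icc 0 L) :=
    (hZc.mul hPc).continuousOn.add ((hZc.pow 2).continuousOn.mul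
      (hsc.continuousOn.div hcc.continuousOn fun t ht => (hw t ht).ne'))
  have hΦD : ∀ t ∈ Ioo 0 L, ∃ d, HasDerivAt Φ d t ∧
      (P t + Z t * (Real.sin (t - L / 2) / Real.cos (t - L / 2))) ^ 2 ≤ d := by
    intro t ht
    have hwt := hw t ⟨ht.1.le, ht.2.le⟩
    have h1 := (hZD t ht).mul (hPD t ht)
    have h2 := ((hZD t ht).pow 2).mul ((huD t).div (hwD t) hwt.ne')
    refine ⟨_, h1.add h2, ?_⟩
    have h3 := prod_ge hε (y₀ t) (y₁ t)
    have h4 := Real.sin_sq_add_cos_sq (t - L / 2)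
    simp only [Pi.pow_apply]
    push_cast
    set u := Real.sin (t - L / 2)
    set w := Real.cos (t - L / 2)
    have h5 : (w * w - u * -u) / w ^ 2 = 1 + (u / w) ^ 2 := by
      field_simp; ring
    rw [h5]
    have h6 : -(Z t) ^ 2 ≤ Z t * ((om1 ε (y₀ t) - om1 ε (y₁ t)) / π ^ 2) := h3
    have h7 : (fun t => Real.sin (t - L / 2)) = fun t => Real.sin (t - L / 2) := rfl
    simp only [Pi.div_apply]
    nlinarith
  have hZ0 : Z 0 = 0 := by simp only [hZ, ey0, sub_self]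
  have hZL : Z L = 0 := by simp only [hZ, ey1, sub_self]
  have hmono : MonotoneOn Φ (Icc 0 L) := by
    apply monotoneOn_of_deriv_nonneg (convex_Icc 0 L) hΦc
    · rw [interior_Icc]
      intro t ht
      obtain ⟨d, hd, -⟩ := hΦD t ht
      exact hd.differentiableAt.differentiableWithinAt
    · rw [interior_Icc]
      intro t ht
      obtain ⟨d, hd, hd'⟩ := hΦD t ht
      rw [hd.deriv]
      exact (sq_nonneg _).trans hd'
  have hΦ0 : ∀ t ∈ Icc 0 L, Φ t = 0 := by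
    intro t ht
    have h1 := hmono ⟨le_rfl, hL.le⟩ ht ht.1
    have h2 := hmono ht ⟨hL.le, le_rfl⟩ ht.2
    have h3 : Φ 0 = 0 := by simp only [hΦ, hZ0]; ring
    have h4 : Φ L = 0 := by simp only [hΦ, hZL]; ring
    linarith
  have hPZ : ∀ t ∈ Ioo 0 L, P t + Z t * (Real.sin (t - L / 2) / Real.cos (t - L / 2)) = 0 := by
    intro t ht
    obtain ⟨d, hd, hd'⟩ := hΦD t ht
    have h1 : HasDerivAt Φ 0 t := by
      refine (hasDerivAt_const t (0 : ℝ)).congr_of_eventuallyEq ?_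
      filter_upwards [Ioo_mem_nhds ht.1 ht.2] with s hs
      exact hΦ0 s ⟨hs.1.le, hs.2.le⟩
    rw [hd.unique h1] at hd'
    exact pow_eq_zero_iff (two_ne_zero) |>.mp (le_antisymm hd' (sq_nonneg _))
  have hq : ∀ t ∈ Icc 0 L, Z t / Real.cos (t - L / 2) = Z 0 / Real.cos (0 - L / 2) := by
    apply const_aux (e := fun t => Z t / Real.cos (t - L / 2))
    · exact hZc.continuousOn.div hcc.continuousOn fun t ht => (hw t ht).ne'
    · intro t ht
      have hwt := hw t ⟨ht.1.le, ht.2.le⟩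
      refine ((hZD t ht).div (hwD t) hwt.ne').congr_deriv ?_
      have h1 := hPZ t ht
      have h2 : P t * Real.cos (t - L / 2) - Z t * -Real.sin (t - L / 2) =
          (P t + Z t * (Real.sin (t - L / 2) / Real.cos (t - L / 2))) * Real.cos (t - L / 2) := by
        rw [add_mul, mul_assoc (Z t), div_mul_cancel₀ _ hwt.ne']; ring
      rw [h2, h1]; simp
  have hyy : ∀ t ∈ Icc 0 L, y₀ t = y₁ t := by
    intro t ht
    have h1 := hq t ht
    rw [hZ0, zero_div, div_eq_zero_iff] at h1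
    have h2 : Z t = 0 := h1.resolve_right (hw t ht).ne'
    exact (strictMono_Sf hε).injective (sub_eq_zero.mp h2)
  have hxD : ∀ t ∈ Ioo 0 L, HasDerivAt (fun t => x₀ t - x₁ t) ((J₀ - J₁) / om ε (y₀ t) ^ 2) t := by
    intro t ht
    refine ((hx₀D t ht).sub (hx₁D t ht)).congr_deriv ?_
    rw [← hyy t ⟨ht.1.le, ht.2.le⟩]; ring
  have hxc : ContinuousOn (fun t => x₀ t - x₁ t) (Icc 0 L) :=
    (hx₀.continuous.sub hx₁.continuous).continuousOn
  obtain ⟨c, hc, hc'⟩ := exists_hasDerivAt_eq_slope (fun t => x₀ t - x₁ t) _ hL hxc hxD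
  have hJJ : J₀ - J₁ = 0 := by
    rw [ex0, ex1, sub_self, sub_self, sub_self, zero_div, div_eq_zero_iff] at hc'
    exact hc'.resolve_right (pow_ne_zero 2 (om_pos hε _).ne')
  have hxx : ∀ t ∈ Icc 0 L, x₀ t - x₁ t = x₀ 0 - x₁ 0 := by
    apply const_aux (e := fun t => x₀ t - x₁ t) hxc
    intro t ht
    have := hxD t ht
    rwa [hJJ, zero_div] at this
  intro t ht
  refine ⟨?_, hyy t ht⟩
  have := hxx t ht
  rw [ex0, sub_self] at this
  linarith

theorem unique_min (hε : 0 < ε) {p q : ℝ × ℝ} {c c' : ℝ → ℝ × ℝ}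
    (hd : (geps ε hε).dist p q < π / 2) (hc : (geps ε hε).IsMin p q c)
    (hc' : (geps ε hε).IsMin p q c') : EqOn c' c (Icc 0 ((geps ε hε).dist p q)) := by
  have hπ := Real.pi_pos
  set L := (geps ε hε).dist p q with hLdef
  have hL0 : 0 ≤ L := (geps ε hε).dist_nonneg p q
  obtain ⟨h0, h1, h2⟩ := hc
  obtain ⟨h0', h1', h2'⟩ := hc'
  rw [← hLdef] at h1 h2 h1' h2'
  rcases hL0.eq_or_lt with hL | hL
  · intro t ht
    have ht' : t = 0 := by
      apply le_antisymm _ ht.1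
      rw [hL]; exact ht.2
    rw [ht', h0, h0']
  -- extension by constants
  have lip : ∀ c : ℝ → ℝ × ℝ, (∀ s ∈ Icc 0 L, ∀ t ∈ Icc 0 L,
      (geps ε hε).dist (c s) (c t) = |s - t|) →
      LipschitzWith 1 (fun t => (c (projIcc 0 L hL.le t)).1) ∧
      LipschitzWith 1 (fun t => (c (projIcc 0 L hL.le t)).2) := by
    intro c hc
    have hs2 : (1 : ℝ) ≤ √2 := by
      rw [show (1 : ℝ) = √1 by simp]; exact Real.sqrt_le_sqrt (by norm_num)
    have hpi1 : (1 : ℝ) ≤ π := by linarith [Real.two_le_pi]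
    constructor
    · apply LipschitzWith.of_dist_le_mul
      intro s t
      rw [Real.dist_eq, Real.dist_eq, NNReal.coe_one, one_mul]
      have k1 := dist_ge_x hε (c (projIcc 0 L hL.le s)) (c (projIcc 0 L hL.le t))
      rw [hc _ (projIcc 0 L hL.le s).2 _ (projIcc 0 L hL.le t).2] at k1
      have k2 : |(projIcc 0 L hL.le s : ℝ) - projIcc 0 L hL.le t| ≤ |s - t| := by
        have := (LipschitzWith.projIcc hL.le).dist_le_mul s t
        simpa [Real.dist_eq, Subtype.dist_eq] using this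
      rw [abs_sub_comm (c (projIcc 0 L hL.le s)).1]
      have k3 : 1 * |(c (projIcc 0 L hL.le t)).1 - (c (projIcc 0 L hL.le s)).1| ≤
          π * √2 * |(c (projIcc 0 L hL.le t)).1 - (c (projIcc 0 L hL.le s)).1| :=
        mul_le_mul_of_nonneg_right (by nlinarith) (abs_nonneg _)
      linarith
    · apply LipschitzWith.of_dist_le_mul
      intro s t
      rw [Real.dist_eq, Real.dist_eq, NNReal.coe_one, one_mul]
      have k1 := dist_ge_y hε (c (projIcc 0 L hL.le s)) (c (projIcc 0 L hL.le t))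
      rw [hc _ (projIcc 0 L hL.le s).2 _ (projIcc 0 L hL.le t).2] at k1
      have k2 : |(projIcc 0 L hL.le s : ℝ) - projIcc 0 L hL.le t| ≤ |s - t| := by
        have := (LipschitzWith.projIcc hL.le).dist_le_mul s t
        simpa [Real.dist_eq, Subtype.dist_eq] using this
      rw [abs_sub_comm (c (projIcc 0 L hL.le s)).2]
      have k3 : 1 * |(c (projIcc 0 L hL.le t)).2 - (c (projIcc 0 L hL.le s)).2| ≤
          π * |(c (projIcc 0 L hL.le t)).2 - (c (projIcc 0 L hL.le s)).2| :=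
        mul_le_mul_of_nonneg_right hpi1 (abs_nonneg _)
      linarith
  have hproj : ∀ t (ht : t ∈ Icc 0 L), (projIcc 0 L hL.le t : ℝ) = t := fun t ht => by
    rw [projIcc_of_mem hL.le ht]
  have geo : ∀ c : ℝ → ℝ × ℝ, (∀ s ∈ Icc 0 L, ∀ t ∈ Icc 0 L,
      (geps ε hε).dist (c s) (c t) = |s - t|) →
      IsGeo hε L (fun t => (c (projIcc 0 L hL.le t)).1) (fun t => (c (projIcc 0 L hL.le t)).2) := by
    intro c hc s hs t ht
    simp only [hproj s hs, hproj t ht]
    exact hc s hs t ht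
  obtain ⟨lx, ly⟩ := lip c h2
  obtain ⟨lx', ly'⟩ := lip c' h2'
  have z0 : (0 : ℝ) ∈ Icc 0 L := ⟨le_rfl, hL.le⟩
  have zL : L ∈ Icc 0 L := ⟨hL.le, le_rfl⟩
  have key := geo_unique_aux hε hL (by linarith) lx' ly' lx ly (geo c' h2') (geo c h2)
    (by simp only [hproj 0 z0, h0, h0']) (by simp only [hproj 0 z0, h0, h0'])
    (by simp only [hproj L zL, h1, h1']) (by simp only [hproj L zL, h1, h1'])
  intro t ht
  have := key t ht
  simp only [hproj t ht] at this
  exact Prod.ext this.1 this.2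

end T4

/-- The metrics `geps` have unique shortest paths up to distance `π/2`. -/
theorem geps_uniqueShortest {ε : ℝ} (hε : 0 < ε) : (geps ε hε).UniqueShortest (π / 2) := by
  apply RMetric.uniqueShortest_of
  · intro p m n hmn
    have := T4.sep hε p hmn
    linarith
  · intro p q c c' hd hc hc'
    exact T4.unique_min hε hd hc hc'

end KB
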